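import Mathlib

set_option linter.style.longLine false

/-!
# Elimination (project PF)

`E1 = E2 = 0` has no rational solution `(k, u)` with `k ≠ 0, 1`, `u ≠ 0`, `k^2 ≠ u`.
-/

namespace PF

/-- no rational root of the degree 20 eliminant (reduction modulo 11). -/
theorem r20_ne (k : ℚ) : -200704+2625536*k-14411776*k^2+39814656*k^3-37679808*k^4-113629824*k^5+498201840*k^6
      -901955664*k^7+822965343*k^8-16436588*k^9-1050816260*k^10+1606845022*k^11-1391334609*k^12
      +797854974*k^13-307186515*k^14+72901035*k^15-5827194*k^16-2710767*k^17+1166579*k^18-196510*k^19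
      +11225*k^20 ≠ 0 := by
  intro h
  have hb : (k.den : ℤ) ≠ 0 := by exact_mod_cast k.den_ne_zero
  set a : ℤ := k.num with ha
  set b : ℤ := (k.den : ℤ) with hbd
  have hk : k = (a : ℚ) / (b : ℚ) := by
    rw [ha, hbd]; push_cast; exact (Rat.num_div_den k).symm
  have hbq : (b : ℚ) ≠ 0 := by exact_mod_cast hb
  have hZ : (-200704)*a^0*b^20+(2625536)*a^1*b^19+(-14411776)*a^2*b^18+(39814656)*a^3*b^17+(-37679808)*a^4*b^16+(-113629824)*a^5*b^15+(498201840)*a^6*b^14+(-901955664)*a^7*b^13+(822965343)*a^8*b^12+(-16436588)*a^9*b^11+(-1050816260)*a^10*b^10+(1606845022)*a^11*b^9+(-1391334609)*a^12*b^8+(797854974)*a^13*b^7+(-307186515)*a^14*b^6+(72901035)*a^15*b^5+(-5827194)*a^16*b^4+(-2710767)*a^17*b^3+(1166579)*a^18*b^2+(-196510)*a^19*b^1+(11225)*a^20*b^0 = (0 : ℤ) := by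
    have : (((-200704)*a^0*b^20+(2625536)*a^1*b^19+(-14411776)*a^2*b^18+(39814656)*a^3*b^17+(-37679808)*a^4*b^16+(-113629824)*a^5*b^15+(498201840)*a^6*b^14+(-901955664)*a^7*b^13+(822965343)*a^8*b^12+(-16436588)*a^9*b^11+(-1050816260)*a^10*b^10+(1606845022)*a^11*b^9+(-1391334609)*a^12*b^8+(797854974)*a^13*b^7+(-307186515)*a^14*b^6+(72901035)*a^15*b^5+(-5827194)*a^16*b^4+(-2710767)*a^17*b^3+(1166579)*a^18*b^2+(-196510)*a^19*b^1+(11225)*a^20*b^0 : ℤ) : ℚ) = 0 := by
      push_cast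
      rw [hk] at h
      field_simp at h
      linear_combination h
    exact_mod_cast this
  have h11 : (((-200704)*a^0*b^20+(2625536)*a^1*b^19+(-14411776)*a^2*b^18+(39814656)*a^3*b^17+(-37679808)*a^4*b^16+(-113629824)*a^5*b^15+(498201840)*a^6*b^14+(-901955664)*a^7*b^13+(822965343)*a^8*b^12+(-16436588)*a^9*b^11+(-1050816260)*a^10*b^10+(1606845022)*a^11*b^9+(-1391334609)*a^12*b^8+(797854974)*a^13*b^7+(-307186515)*a^14*b^6+(72901035)*a^15*b^5+(-5827194)*a^16*b^4+(-2710767)*a^17*b^3+(1166579)*a^18*b^2+(-196510)*a^19*b^1+(11225)*a^20*b^0 : ℤ) : ZMod 11) = 0 := by rw [hZ]; simp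
  push_cast at h11
  have key : ∀ x y : ZMod 11, (2)*x^0*y^20+(1)*x^1*y^19+(-5)*x^2*y^18+(2)*x^3*y^17+(-1)*x^4*y^16+(0)*x^5*y^15+(4)*x^6*y^14+(-5)*x^7*y^13+(2)*x^8*y^12+(-3)*x^9*y^11+(1)*x^10*y^10+(2)*x^11*y^9+(-5)*x^12*y^8+(4)*x^13*y^7+(2)*x^14*y^6+(-2)*x^15*y^5+(1)*x^16*y^4+(-4)*x^17*y^3+(-4)*x^18*y^2+(5)*x^19*y^1+(5)*x^20*y^0 = 0 → x = 0 ∧ y = 0 := by decide
  obtain ⟨h1, h2⟩ := key _ _ h11
  have d1 : (11 : ℤ) ∣ a := (ZMod.intCast_zmod_eq_zero_iff_dvd a 11).mp h1
  have d2 : (11 : ℤ) ∣ b := (ZMod.intCast_zmod_eq_zero_iff_dvd b 11).mp h2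
  have hcop : IsCoprime a b := by
    rw [ha, hbd, Int.isCoprime_iff_gcd_eq_one]
    exact k.reduced
  have := hcop.isUnit_of_dvd' d1 d2
  rw [Int.isUnit_iff] at this
  omega

/-- the resultant certificate. -/
theorem elm_cert (k u : ℚ)
    (h1 : u*(k^2-u)^2*(k-1)^2*(24*k+u*(k^2-4*k-8))+2*(k^2-u)*k*(k-1)*(u-1)^2*(2*k^2+4*u+u*k^2-2*u*k)+k^4*(u-1)^4 = 0)
    (h2 : (k-1)^2*u*(k^2-u)*(2*k^3*u+4*k*u^2-k^2*u^2-8*k^2*u+2*u^2+15*k^2-16*k*u+18*k)+(k-1)*(u-1)^2*k*(k^4*u-2*k^2*u^2+2*k^3*u+2*k*u^2-8*k^2*u-8*u^2+12*k^3+12*k*u-9*k^2)+(u-1)^4*k^2*(k^2+2*k-2) = 0) :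
    -4 * (k^3 * (k-1)^6 * (k+1)^3 * (2*k-1)^2 * (-200704+2625536*k-14411776*k^2+39814656*k^3-37679808*k^4-113629824*k^5+498201840*k^6
      -901955664*k^7+822965343*k^8-16436588*k^9-1050816260*k^10+1606845022*k^11-1391334609*k^12
      +797854974*k^13-307186515*k^14+72901035*k^15-5827194*k^16-2710767*k^17+1166579*k^18-196510*k^19
      +11225*k^20)) = 0 := by
  linear_combination
    ((-415744*k+6731776*k^2-47151104*k^3+180509824*k^4-371435584*k^5+197507168*k^6+1005266884*k^7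
      -2824062598*k^8+2841112739*k^9+683283482*k^10-4664060293*k^11+3639154439*k^12+1825305800*k^13
      -4300744643*k^14-61637141*k^15+5867074298*k^16-6510214850*k^17+2528145766*k^18+1187086681*k^19
      -2148931769*k^20+1388038903*k^21-525227405*k^22+113393993*k^23-4997179*k^24-5284100*k^25
      +1792445*k^26-254800*k^27+13000*k^28)+(1323008*k-16636928*k^2+88538624*k^3-247812608*k^4
      +331171040*k^5+64021696*k^6-944088832*k^7+1139064936*k^8+761333626*k^9-3801038319*k^10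
      +4181018391*k^11+592523875*k^12-7331482222*k^13+9409015606*k^14-4334541643*k^15-3083076398*k^16
      +6500966337*k^17-4789177810*k^18+1437538380*k^19+513131709*k^20-783538108*k^21+421529179*k^22
      -130075387*k^23+20064322*k^24+1456046*k^25-1553658*k^26+362584*k^27-39010*k^28+1600*k^29)*u+(
      -86016+1440768*k-9597184*k^2+32951168*k^3-56644576*k^4+6786240*k^5+208494508*k^6-561356878*k^7
      +834536042*k^8-760406705*k^9+282018096*k^10+338159725*k^11-816377123*k^12+1229319856*k^13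
      -1745037483*k^14+2047382825*k^15-1635048194*k^16+656113738*k^17+175638212*k^18-440217237*k^19
      +312457523*k^20-128112913*k^21+30687533*k^22-2349201*k^23-1150145*k^24+466910*k^25-73525*k^26
      +4000*k^27)*u^2+(268288-3792896*k+22268416*k^2-67356160*k^3+94943968*k^4+17098720*k^5
      -250503976*k^6+180395796*k^7+585925914*k^8-1447491232*k^9+1086302753*k^10+694332707*k^11
      -2305871087*k^12+2285876762*k^13-1006248772*k^14-159146735*k^15+525529560*k^16-368151135*k^17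
      +145815616*k^18-33141692*k^19+1999081*k^20+1382816*k^21-508625*k^22+75925*k^23-4000*k^24)*u^3) * h1
    + ((-401408*k+5853184*k^2-36004864*k^3+112247296*k^4-125035136*k^5-358164992*k^6+1730475456*k^7
      -2964358512*k^8+1040680792*k^9+5586149551*k^10-11760542312*k^11+8146118581*k^12+6425244419*k^13
      -18915115066*k^14+15606006755*k^15+459012339*k^16-13166569578*k^17+12874066358*k^18
      -4636344436*k^19-1956668677*k^20+3458196929*k^21-2169499547*k^22+800750161*k^23-168101201*k^24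
      +6199113*k^25+8131434*k^26-2686307*k^27+378980*k^28-19300*k^29)+(802816*k-8867840*k^2
      +35289088*k^3-34031104*k^4-177768448*k^5+580136576*k^6-134790096*k^7-2474953408*k^8
      +5156619460*k^9-1615957226*k^10-9858153316*k^11+18445685592*k^12-11338071932*k^13
      -7601612054*k^14+20591590681*k^15-17938890846*k^16+6906454006*k^17+1279550564*k^18
      -3412861018*k^19+2450051122*k^20-1213452732*k^21+495536540*k^22-169704259*k^23+43769165*k^24
      -6147924*k^25-733558*k^26+655597*k^27-163387*k^28+18705*k^29-800*k^30)*u+(344064-4173824*k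
      +22688768*k^2-74170880*k^3+159007232*k^4-179642496*k^5-205765472*k^6+1464804656*k^7
      -3195443478*k^8+3199252605*k^9+529237766*k^10-5843121077*k^11+7346359664*k^12-3292006166*k^13
      -1682703885*k^14+2856756248*k^15-914224898*k^16-763847169*k^17+863915175*k^18-303004094*k^19
      -32087578*k^20+73329559*k^21-31365586*k^22+5990706*k^23+175078*k^24-378712*k^25+78630*k^26
      -4800*k^27)*u^2+(-1073152+13561856*k-71547904*k^2+192873472*k^3-225450112*k^4-132480448*k^5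
      +684514768*k^6-251405712*k^7-1878883596*k^8+3770027086*k^9-2265398525*k^10-2439763337*k^11
      +6096589241*k^12-5535282500*k^13+2183450584*k^14+573785615*k^15-1322701344*k^16+877937769*k^17
      -336681958*k^18+73981916*k^19-3766573*k^20-3282230*k^21+1155227*k^22-168955*k^23+8800*k^24)*u^3) * h2

theorem elm (k u : ℚ) (hk : k ≠ 0) (hk1 : k ≠ 1) (hu : u ≠ 0) (hd : k ^ 2 - u ≠ 0)
    (h1 : u*(k^2-u)^2*(k-1)^2*(24*k+u*(k^2-4*k-8))+2*(k^2-u)*k*(k-1)*(u-1)^2*(2*k^2+4*u+u*k^2-2*u*k)+k^4*(u-1)^4 = 0)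
    (h2 : (k-1)^2*u*(k^2-u)*(2*k^3*u+4*k*u^2-k^2*u^2-8*k^2*u+2*u^2+15*k^2-16*k*u+18*k)+(k-1)*(u-1)^2*k*(k^4*u-2*k^2*u^2+2*k^3*u+2*k*u^2-8*k^2*u-8*u^2+12*k^3+12*k*u-9*k^2)+(u-1)^4*k^2*(k^2+2*k-2) = 0) : False := by
  have hc := elm_cert k u h1 h2
  have hr := r20_ne k
  have hk1' : k - 1 ≠ 0 := sub_ne_zero.mpr hk1
  have h3 : (k + 1) ^ 3 * (2 * k - 1) ^ 2 = 0 := by
    have : (-4 * (k^3 * (k-1)^6 * (-200704+2625536*k-14411776*k^2+39814656*k^3-37679808*k^4-113629824*k^5+498201840*k^6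
      -901955664*k^7+822965343*k^8-16436588*k^9-1050816260*k^10+1606845022*k^11-1391334609*k^12
      +797854974*k^13-307186515*k^14+72901035*k^15-5827194*k^16-2710767*k^17+1166579*k^18-196510*k^19
      +11225*k^20))) * ((k + 1) ^ 3 * (2 * k - 1) ^ 2) = 0 := by
      linear_combination hc
    rcases mul_eq_zero.mp this with h | h
    · exfalso
      have h' := mul_ne_zero (by norm_num : (-4 : ℚ) ≠ 0)
        (mul_ne_zero (mul_ne_zero (pow_ne_zero 3 hk) (pow_ne_zero 6 hk1')) hr)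
      exact h' h
    · exact h
  rcases mul_eq_zero.mp h3 with h | h
  · have hkm : k = -1 := by
      have := pow_eq_zero_iff (n := 3) (by norm_num) |>.mp h
      linarith
    subst hkm
    have hu1 : u - 1 ≠ 0 := fun h => hd (by linear_combination -h)
    have e2 : (u - 1) ^ 2 * (5 * u ^ 2 + 16 * u + 15) = 0 := by linear_combination (-1 / 3) * h2
    rcases mul_eq_zero.mp e2 with h | h
    · exact (pow_ne_zero 2 hu1) h
    · nlinarith [sq_nonneg (5 * u + 8)]
  · have hkm : k = 1 / 2 := by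
      have := pow_eq_zero_iff (n := 2) (by norm_num) |>.mp h
      linarith
    subst hkm
    have e1 : u * (-24 + 153 * u + 144 * u ^ 2 - 192 * u ^ 3) = 0 := by
      linear_combination 256 * h1
    have e2 : u * (6 - 45 * u - 90 * u ^ 2 + 48 * u ^ 3) = 0 := by
      linear_combination 64 * h2
    have f1 := (mul_eq_zero.mp e1).resolve_left hu
    have f2 := (mul_eq_zero.mp e2).resolve_left hu
    have e3 : u * (1 + 8 * u) = 0 := by linear_combination (-1 / 27) * (4 * f2 + f1)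
    have f3 := (mul_eq_zero.mp e3).resolve_left hu
    have hu8 : u = -1 / 8 := by linarith
    subst hu8
    norm_num at f2

end PF
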