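import Mathlib
import Pool.Agent.Helper53.PF.Elm

set_option linter.style.longLine false

/-!
# The scalar system of Part C (project PF) has no rational solution
-/

namespace PF

/-- Scalar equations obtained from `StCMP` (coefficients of the three polynomial identities);
`W = w₀ + w₁ X + w₂ X²`. -/
structure Sc (n P R₀ e g a₀ a₁ b₀ b₁ c₀ c₁ w₀ w₁ w₂ : ℚ) : Prop where
  h2 : 12 * a₁ + 3 * g ^ 2 + 8 * P * c₁ = 0
  h10 : 12 * a₀ ^ 2 = 4 * (P ^ 2 * c₀ ^ 2 - P * b₀ ^ 2 - 3 * R₀ * b₀ * c₀)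
  h11 : 6 * g * w₀ = 4 * (2 * P ^ 2 * c₀ * c₁ - 2 * P * b₀ * b₁
    - 3 * (R₀ * (b₀ * c₁ + b₁ * c₀) + e * b₀ * c₀)) - 24 * a₀ * a₁
  h12 : 6 * g * w₁ = 4 * (P ^ 2 * c₁ ^ 2 - P * b₁ ^ 2
    - 3 * (R₀ * b₁ * c₁ + e * (b₀ * c₁ + b₁ * c₀))) - 12 * a₁ ^ 2
  h13 : 6 * g * w₂ = -12 * e * b₁ * c₁
  h01 : 12 * a₀ ^ 2 * a₁ + 3 * w₀ ^ 2 + 4 * (3 * R₀ * b₀ ^ 2 * b₁ + e * b₀ ^ 3
    - P * (R₀ * (b₁ * c₀ ^ 2 + 2 * b₀ * c₀ * c₁) + e * b₀ * c₀ ^ 2)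
    + (2 * R₀ * e * c₀ ^ 3 + 3 * R₀ ^ 2 * c₀ ^ 2 * c₁)) = 0
  h02 : 12 * a₀ * a₁ ^ 2 + 6 * w₀ * w₁ + 4 * (3 * R₀ * b₀ * b₁ ^ 2 + 3 * e * b₀ ^ 2 * b₁
    - P * (R₀ * (2 * b₁ * c₀ * c₁ + b₀ * c₁ ^ 2) + e * (b₁ * c₀ ^ 2 + 2 * b₀ * c₀ * c₁))
    + (e ^ 2 * c₀ ^ 3 + 6 * R₀ * e * c₀ ^ 2 * c₁ + 3 * R₀ ^ 2 * c₀ * c₁ ^ 2)) = 0
  h04 : 6 * w₁ * w₂ + 4 * (e * b₁ ^ 3 - P * e * b₁ * c₁ ^ 2
    + (3 * e ^ 2 * c₀ * c₁ ^ 2 + 2 * R₀ * e * c₁ ^ 3)) = 0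
  h05 : 3 * w₂ ^ 2 + 4 * e ^ 2 * c₁ ^ 3 = 0

/-- the quartic of the case `g = 0` has no rational root. -/
theorem quartic_ne (m : ℚ) : 3 * m ^ 4 + 8 * m ^ 3 + 9 * m ^ 2 + 6 * m - 1 ≠ 0 := by
  intro h
  have hb : (m.den : ℤ) ≠ 0 := by exact_mod_cast m.den_ne_zero
  set a : ℤ := m.num with ha
  set b : ℤ := (m.den : ℤ) with hbd
  have hk : m = (a : ℚ) / (b : ℚ) := by
    rw [ha, hbd]; push_cast; exact (Rat.num_div_den m).symm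
  have hbq : (b : ℚ) ≠ 0 := by exact_mod_cast hb
  have hZ : 3 * a ^ 4 + 8 * a ^ 3 * b + 9 * a ^ 2 * b ^ 2 + 6 * a * b ^ 3 - b ^ 4 = (0 : ℤ) := by
    have : ((3 * a ^ 4 + 8 * a ^ 3 * b + 9 * a ^ 2 * b ^ 2 + 6 * a * b ^ 3 - b ^ 4 : ℤ) : ℚ) = 0 := by
      push_cast
      rw [hk] at h
      field_simp at h
      linear_combination h
    exact_mod_cast this
  have key : ∀ x y : ZMod 4, 3 * x ^ 4 + 8 * x ^ 3 * y + 9 * x ^ 2 * y ^ 2 + 6 * x * y ^ 3 - y ^ 4 = 0 →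
      2 * x = 0 ∧ 2 * y = 0 := by decide
  have h11 : ((3 * a ^ 4 + 8 * a ^ 3 * b + 9 * a ^ 2 * b ^ 2 + 6 * a * b ^ 3 - b ^ 4 : ℤ) : ZMod 4) = 0 := by
    rw [hZ]; simp
  push_cast at h11
  obtain ⟨h1, h2⟩ := key _ _ h11
  have d1 : (4 : ℤ) ∣ 2 * a := (ZMod.intCast_zmod_eq_zero_iff_dvd (2 * a) 4).mp (by push_cast; exact h1)
  have d2 : (4 : ℤ) ∣ 2 * b := (ZMod.intCast_zmod_eq_zero_iff_dvd (2 * b) 4).mp (by push_cast; exact h2)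
  have e1 : (2 : ℤ) ∣ a := by omega
  have e2 : (2 : ℤ) ∣ b := by omega
  have hcop : IsCoprime a b := by
    rw [ha, hbd, Int.isCoprime_iff_gcd_eq_one]
    exact m.reduced
  have := hcop.isUnit_of_dvd' e1 e2
  rw [Int.isUnit_iff] at this
  omega

/-- case `g = 0` -/
theorem sc_g0 {n P R₀ e a₀ a₁ b₀ b₁ c₀ c₁ w₀ w₁ w₂ q r : ℚ} (he : e ≠ 0)
    (hc : c₁ ≠ 0) (hP : P = 3 * n * q * r) (hR : R₀ = n * q ^ 3 + n ^ 2 * r ^ 3)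
    (i1 : a₀ + 2 * n * q * r * c₀ = 0) (i2 : b₀ * q + n * c₀ * r ^ 2 = 1)
    (i3 : b₀ * r + c₀ * q ^ 2 = 0)
    (S : Sc n P R₀ e 0 a₀ a₁ b₀ b₁ c₀ c₁ w₀ w₁ w₂) : False := by
  obtain ⟨h2, h10, h11, h12, h13, h01, h02, h04, h05⟩ := S
  have hb1 : b₁ = 0 := by
    have : e * c₁ * b₁ = 0 := by linear_combination (1 / 12) * h13
    rcases mul_eq_zero.mp this with h | h
    · exact absurd h (mul_ne_zero he hc)
    · exact h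
  subst hb1
  have ha1 : a₁ = -(2 / 3) * P * c₁ := by linear_combination (1 / 12) * h2
  have ha0 : a₀ = -(2 / 3) * P * c₀ := by rw [hP]; linear_combination i1
  subst ha1 ha0
  have k2 : P ^ 2 * c₁ = -9 * e * b₀ := by
    have : c₁ * (P ^ 2 * c₁ - -9 * e * b₀) = 0 := by linear_combination (3 / 4) * h12
    have := (mul_eq_zero.mp this).resolve_left hc
    linear_combination this
  have k1 : b₀ * (e * c₀ - R₀ * c₁) = 0 := by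
    linear_combination (-1/12) * h11 + (2/9) * c₀ * k2
  have k0 : P ^ 2 * c₀ ^ 2 / 3 + P * b₀ ^ 2 + 3 * R₀ * b₀ * c₀ = 0 := by
    linear_combination (1 / 4) * h10
  have hb0 : b₀ = 0 := by
    by_contra hb
    have e1 : e * c₀ = R₀ * c₁ := by
      have := (mul_eq_zero.mp k1).resolve_left hb
      linear_combination this
    have e2 : c₁ * b₀ ^ 2 * P = 0 := by
      linear_combination c₁ * k0 - (c₀ ^ 2 / 3) * k2 + 3 * b₀ * c₀ * e1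
    have hP0 : P = 0 := (mul_eq_zero.mp e2).resolve_left (mul_ne_zero hc (pow_ne_zero 2 hb))
    rw [hP0] at k2
    have : e * b₀ = 0 := by linear_combination (1 / 9) * k2
    rcases mul_eq_zero.mp this with h | h
    · exact he h
    · exact hb h
  subst hb0
  have hncr : n * c₀ * r ^ 2 = 1 := by linear_combination i2
  have hc0 : c₀ ≠ 0 := by
    rintro rfl
    simp at hncr
  have hq : q = 0 := by
    have : c₀ * q ^ 2 = 0 := by linear_combination i3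
    exact pow_eq_zero_iff (n := 2) (by norm_num) |>.mp ((mul_eq_zero.mp this).resolve_left hc0)
  subst hq
  have hP0 : P = 0 := by rw [hP]; ring
  subst hP0
  have h3 : (R₀ * c₁) * (3 * (e * c₀) + 2 * (R₀ * c₁)) ^ 2 * (2 * (e * c₀) + 3 * (R₀ * c₁))
      = ((e * c₀) ^ 2 + 6 * (R₀ * c₁) * (e * c₀) + 3 * (R₀ * c₁) ^ 2) ^ 2 := by
    have t0 : 3 * w₀ ^ 2 = -(4 * R₀ * c₀ ^ 2 * (2 * (e * c₀) + 3 * (R₀ * c₁))) := by
      linear_combination h01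
    have t1 : 6 * w₀ * w₁ = -(4 * c₀ * ((e * c₀) ^ 2 + 6 * (R₀ * c₁) * (e * c₀) + 3 * (R₀ * c₁) ^ 2)) := by
      linear_combination h02
    have t3 : 6 * w₁ * w₂ = -(4 * e * c₁ ^ 2 * (3 * (e * c₀) + 2 * (R₀ * c₁))) := by
      linear_combination h04
    have t4 : 3 * w₂ ^ 2 = -(4 * e ^ 2 * c₁ ^ 3) := by linear_combination h05
    have key : (6 * w₁ * w₂) ^ 2 * (3 * w₀ ^ 2) = (6 * w₀ * w₁) ^ 2 * (3 * w₂ ^ 2) := by ring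
    rw [t0, t1, t3, t4] at key
    have hne : (64 * e ^ 2 * c₁ ^ 3 * c₀ ^ 2 : ℚ) ≠ 0 := by positivity
    apply mul_left_cancel₀ hne
    linear_combination (-1) * key
  have hy : e * c₀ ≠ 0 := mul_ne_zero he hc0
  apply quartic_ne (R₀ * c₁ / (e * c₀))
  field_simp
  linear_combination h3

/-- `35` is not a rational square, in the form needed. -/
theorem no35 (y : ℚ) : y ^ 2 + 1296 * y + 11664 ≠ 0 := by
  intro h
  have h35 : ((y + 648) / 108) ^ 2 = (35 : ℚ) := by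
    field_simp
    linear_combination h
  have : IsSquare (35 : ℚ) := ⟨(y + 648) / 108, by rw [← h35]; ring⟩
  rw [Rat.isSquare_iff] at this
  obtain ⟨⟨m, hm⟩, -⟩ := this
  have hm' : m * m = 35 := by
    have : (35 : ℚ).num = 35 := by norm_num
    rw [this] at hm
    exact hm.symm
  have : m ≤ 6 ∧ -6 ≤ m := by constructor <;> nlinarith
  obtain ⟨h1, h2⟩ := this
  interval_cases m <;> omega

/-- case `g ≠ 0`, `r = 0` -/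
theorem sc_r0 {n P R₀ e g a₀ a₁ b₀ b₁ c₀ c₁ w₀ w₁ w₂ q : ℚ} (hn : n ≠ 0) (he : e ≠ 0)
    (hc : c₁ ≠ 0) (hg : g ≠ 0) (hP : P = 0) (hR : R₀ = n * q ^ 3)
    (i1 : a₀ = 0) (i2 : b₀ * q = 1) (i3 : c₀ * q ^ 2 = 0)
    (S : Sc n P R₀ e g a₀ a₁ b₀ b₁ c₀ c₁ w₀ w₁ w₂) : False := by
  obtain ⟨h2, h10, h11, h12, h13, h01, h02, h04, h05⟩ := S
  have hq : q ≠ 0 := by rintro rfl; simp at i2
  have hb0 : b₀ ≠ 0 := by rintro rfl; simp at i2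
  have hc0 : c₀ = 0 := (mul_eq_zero.mp i3).resolve_right (pow_ne_zero 2 hq)
  subst hc0 i1 hP
  have hR0 : R₀ ≠ 0 := by rw [hR]; exact mul_ne_zero hn (pow_ne_zero 3 hq)
  have ha1 : a₁ = -g ^ 2 / 4 := by linear_combination (1 / 12) * h2
  subst ha1
  have hw2 : g * w₂ = -2 * e * b₁ * c₁ := by linear_combination (1 / 6) * h13
  have hcb : g ^ 2 * c₁ = -3 * b₁ ^ 2 := by
    have : (4 * e ^ 2 * c₁ ^ 2) * (3 * b₁ ^ 2 + g ^ 2 * c₁) = 0 := by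
      linear_combination g ^ 2 * h05 - 3 * (g * w₂ + -2 * e * b₁ * c₁) * hw2
    have := (mul_eq_zero.mp this).resolve_left (by positivity)
    linear_combination this
  have hb1 : b₁ ≠ 0 := by
    rintro rfl
    have : g ^ 2 * c₁ = 0 := by linear_combination hcb
    exact (mul_ne_zero (pow_ne_zero 2 hg) hc) this
  have hc1' : c₁ = -3 * b₁ ^ 2 / g ^ 2 := by field_simp; linear_combination hcb
  have hw0 : g * w₀ = -2 * R₀ * b₀ * c₁ := by linear_combination (1 / 6) * h11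
  have hw1 : g * w₁ = -2 * (R₀ * b₁ * c₁ + e * b₀ * c₁) - g ^ 4 / 8 := by
    linear_combination (1 / 6) * h12
  have f1 : 12 * R₀ ^ 2 * b₀ ^ 2 * c₁ ^ 2 + g ^ 2 * (4 * (3 * R₀ * b₀ ^ 2 * b₁ + e * b₀ ^ 3)) = 0 := by
    linear_combination g ^ 2 * h01 - 3 * (g * w₀ + -2 * R₀ * b₀ * c₁) * hw0
  have f4 : 6 * (-2 * (R₀ * b₁ * c₁ + e * b₀ * c₁) - g ^ 4 / 8) * (-2 * e * b₁ * c₁)
      + g ^ 2 * (4 * (e * b₁ ^ 3 + 2 * R₀ * e * c₁ ^ 3)) = 0 := by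
    linear_combination g ^ 2 * h04 - 6 * (g * w₁) * hw2 - 6 * (-2 * e * b₁ * c₁) * hw1
  -- e b₀ = G³ / (432 b₁²)
  have g4 : e * b₀ * (432 * b₁ ^ 2) = g ^ 6 := by
    have : (e * b₁ ^ 3) * (e * b₀ * (432 * b₁ ^ 2) - g ^ 6) = 0 := by
      rw [hc1'] at f4
      field_simp at f4
      linear_combination (1/4) * f4
    have := (mul_eq_zero.mp this).resolve_left (mul_ne_zero he (pow_ne_zero 3 hb1))
    linear_combination this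
  have g1 : 27 * R₀ ^ 2 * b₁ ^ 4 + g ^ 6 * (3 * R₀ * b₁) + g ^ 6 * (e * b₀) = 0 := by
    have : (4 * b₀ ^ 2) * (27 * R₀ ^ 2 * b₁ ^ 4 + g ^ 6 * (3 * R₀ * b₁) + g ^ 6 * (e * b₀)) = 0 := by
      rw [hc1'] at f1
      field_simp at f1
      linear_combination f1
    exact (mul_eq_zero.mp this).resolve_left (by positivity)
  apply no35 (g ^ 6 / (R₀ * b₁ ^ 3))
  field_simp
  linear_combination 432 * b₁ ^ 2 * g1 - g ^ 6 * g4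

/-- case `g ≠ 0`, `q = 0` -/
theorem sc_q0 {n P R₀ e g a₀ a₁ b₀ b₁ c₀ c₁ w₀ w₁ w₂ r : ℚ} (hn : n ≠ 0) (he : e ≠ 0)
    (hc : c₁ ≠ 0) (hg : g ≠ 0) (hP : P = 0) (hR : R₀ = n ^ 2 * r ^ 3)
    (i1 : a₀ = 0) (i2 : n * c₀ * r ^ 2 = 1) (i3 : b₀ * r = 0)
    (S : Sc n P R₀ e g a₀ a₁ b₀ b₁ c₀ c₁ w₀ w₁ w₂) : False := by
  obtain ⟨h2, h10, h11, h12, h13, h01, h02, h04, h05⟩ := S
  have hr : r ≠ 0 := by rintro rfl; simp at i2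
  have hc0 : c₀ ≠ 0 := by rintro rfl; simp at i2
  have hb0 : b₀ = 0 := (mul_eq_zero.mp i3).resolve_right hr
  subst hb0 i1 hP
  have hR0 : R₀ ≠ 0 := by rw [hR]; exact mul_ne_zero (pow_ne_zero 2 hn) (pow_ne_zero 3 hr)
  have ha1 : a₁ = -g ^ 2 / 4 := by linear_combination (1 / 12) * h2
  subst ha1
  have hw2 : g * w₂ = -2 * e * b₁ * c₁ := by linear_combination (1 / 6) * h13
  have hcb : g ^ 2 * c₁ = -3 * b₁ ^ 2 := by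
    have : (4 * e ^ 2 * c₁ ^ 2) * (3 * b₁ ^ 2 + g ^ 2 * c₁) = 0 := by
      linear_combination g ^ 2 * h05 - 3 * (g * w₂ + -2 * e * b₁ * c₁) * hw2
    have := (mul_eq_zero.mp this).resolve_left (by positivity)
    linear_combination this
  have hb1 : b₁ ≠ 0 := by
    rintro rfl
    have : g ^ 2 * c₁ = 0 := by linear_combination hcb
    exact (mul_ne_zero (pow_ne_zero 2 hg) hc) this
  have hc1' : c₁ = -3 * b₁ ^ 2 / g ^ 2 := by field_simp; linear_combination hcb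
  have hw0 : g * w₀ = -2 * R₀ * b₁ * c₀ := by linear_combination (1 / 6) * h11
  have hw1 : g * w₁ = -2 * (R₀ * b₁ * c₁ + e * b₁ * c₀) - g ^ 4 / 8 := by
    linear_combination (1 / 6) * h12
  have f1 : 12 * R₀ ^ 2 * b₁ ^ 2 * c₀ ^ 2
      + g ^ 2 * (4 * (2 * R₀ * e * c₀ ^ 3 + 3 * R₀ ^ 2 * c₀ ^ 2 * c₁)) = 0 := by
    linear_combination g ^ 2 * h01 - 3 * (g * w₀ + -2 * R₀ * b₁ * c₀) * hw0
  have f2 : 6 * (-2 * R₀ * b₁ * c₀) * (-2 * (R₀ * b₁ * c₁ + e * b₁ * c₀) - g ^ 4 / 8)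
      + g ^ 2 * (4 * (e ^ 2 * c₀ ^ 3 + 6 * R₀ * e * c₀ ^ 2 * c₁ + 3 * R₀ ^ 2 * c₀ * c₁ ^ 2)) = 0 := by
    linear_combination g ^ 2 * h02 - 6 * (g * w₁) * hw0 - 6 * (-2 * R₀ * b₁ * c₀) * hw1
  have f4 : 6 * (-2 * (R₀ * b₁ * c₁ + e * b₁ * c₀) - g ^ 4 / 8) * (-2 * e * b₁ * c₁)
      + g ^ 2 * (4 * (e * b₁ ^ 3 + 3 * e ^ 2 * c₀ * c₁ ^ 2 + 2 * R₀ * e * c₁ ^ 3)) = 0 := by
    linear_combination g ^ 2 * h04 - 6 * (g * w₁) * hw2 - 6 * (-2 * e * b₁ * c₁) * hw1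
  -- E1: G e c₀ = 3 R₀ b₁²
  have g1 : g ^ 2 * (e * c₀) = 3 * R₀ * b₁ ^ 2 := by
    have : (8 * R₀ * c₀ ^ 2) * (g ^ 2 * (e * c₀) - 3 * R₀ * b₁ ^ 2) = 0 := by
      linear_combination f1 - 12 * R₀ ^ 2 * c₀ ^ 2 * hcb
    have := (mul_eq_zero.mp this).resolve_left (by positivity)
    linear_combination this
  -- E4: 72 b₁ e c₀ = G²
  have g4 : 72 * b₁ * (e * c₀) = g ^ 4 := by
    have : (e * b₁ ^ 3 * g ^ 2) * (72 * b₁ * (e * c₀) - g ^ 4) = 0 := by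
      rw [hc1'] at f4
      field_simp at f4
      linear_combination (1/4) * f4
    have := (mul_eq_zero.mp this).resolve_left
      (mul_ne_zero (mul_ne_zero he (pow_ne_zero 3 hb1)) (pow_ne_zero 2 hg))
    linear_combination this
  have g3 : g ^ 6 = 216 * R₀ * b₁ ^ 3 := by
    linear_combination (-g ^ 2) * g4 + 72 * b₁ * g1
  have q1 : 9 * (R₀ * b₁ ^ 3) ^ 2 - 12 * (R₀ * b₁ ^ 3) * (b₁ * (e * c₀)) * g ^ 2
      + (3 / 8) * (R₀ * b₁ ^ 3) * g ^ 6 + g ^ 4 * (b₁ * (e * c₀)) ^ 2 = 0 := by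
    have : (4 * c₀) * (9 * (R₀ * b₁ ^ 3) ^ 2 - 12 * (R₀ * b₁ ^ 3) * (b₁ * (e * c₀)) * g ^ 2
      + (3 / 8) * (R₀ * b₁ ^ 3) * g ^ 6 + g ^ 4 * (b₁ * (e * c₀)) ^ 2) = 0 := by
      linear_combination g ^ 2 * b₁ ^ 2 * f2 - 4 * c₀ * (6 * R₀ ^ 2 * b₁ ^ 4
        + 3 * R₀ ^ 2 * b₁ ^ 2 * (g ^ 2 * c₁ - 3 * b₁ ^ 2) + 6 * R₀ * e * c₀ * g ^ 2 * b₁ ^ 2) * hcb
    exact (mul_eq_zero.mp this).resolve_left (mul_ne_zero (by norm_num) hc0)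
  have t1 : R₀ * b₁ ^ 3 = g ^ 6 / 216 := by linear_combination (-1 / 216) * g3
  have t2 : b₁ * (e * c₀) = g ^ 4 / 72 := by linear_combination (1 / 72) * g4
  rw [t1, t2] at q1
  have : g ^ 12 = 0 := by linear_combination (5184 / 7) * q1
  exact (pow_ne_zero 12 hg) this

/-- the main case in the parameters `q, r, G, k, u`. -/
theorem main_param {q r G k u e y₀ y₁ : ℚ} (hq : q ≠ 0) (hr : r ≠ 0) (hG : G ≠ 0) (hk : k ≠ 0)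
    (hu : u ≠ 0) (hd : k ^ 2 - u ≠ 0) (he : e ≠ 0) (P R₀ a₀ a₁ b₀ b₁ c₀ c₁ : ℚ)
    (dP : P = 3 * u * q ^ 4 / (k ^ 2 * r ^ 2)) (dR : R₀ = u * q ^ 6 * (k ^ 2 + u) / (k ^ 4 * r ^ 3))
    (da0 : a₀ = 2 * u * q / (r * (k ^ 2 - u))) (da1 : a₁ = G * (2 * u - 3) / 12)
    (db0 : b₀ = k ^ 2 / (q * (k ^ 2 - u))) (db1 : b₁ = k * r * G / (6 * q ^ 2))
    (dc0 : c₀ = -(r * k ^ 2) / (q ^ 3 * (k ^ 2 - u))) (dc1 : c₁ = -(k ^ 2 * r ^ 2 * G) / (12 * q ^ 4))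
    (hy0 : 6 * y₀ = 4 * (2 * P ^ 2 * c₀ * c₁ - 2 * P * b₀ * b₁
      - 3 * (R₀ * (b₀ * c₁ + b₁ * c₀) + e * b₀ * c₀)) - 24 * a₀ * a₁)
    (hy1 : 6 * y₁ = 4 * (P ^ 2 * c₁ ^ 2 - P * b₁ ^ 2
      - 3 * (R₀ * b₁ * c₁ + e * (b₀ * c₁ + b₁ * c₀))) - 12 * a₁ ^ 2)
    (f1 : 12 * G * a₀ ^ 2 * a₁ + 3 * y₀ ^ 2 + 4 * G * (3 * R₀ * b₀ ^ 2 * b₁ + e * b₀ ^ 3
      - P * (R₀ * (b₁ * c₀ ^ 2 + 2 * b₀ * c₀ * c₁) + e * b₀ * c₀ ^ 2)
      + (2 * R₀ * e * c₀ ^ 3 + 3 * R₀ ^ 2 * c₀ ^ 2 * c₁)) = 0)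
    (f2 : 12 * G * a₀ * a₁ ^ 2 + 6 * y₀ * y₁ + 4 * G * (3 * R₀ * b₀ * b₁ ^ 2 + 3 * e * b₀ ^ 2 * b₁
      - P * (R₀ * (2 * b₁ * c₀ * c₁ + b₀ * c₁ ^ 2) + e * (b₁ * c₀ ^ 2 + 2 * b₀ * c₀ * c₁))
      + (e ^ 2 * c₀ ^ 3 + 6 * R₀ * e * c₀ ^ 2 * c₁ + 3 * R₀ ^ 2 * c₀ * c₁ ^ 2)) = 0)
    (f4 : 6 * y₁ * (-2 * e * b₁ * c₁) + 4 * G * (e * b₁ ^ 3 - P * e * b₁ * c₁ ^ 2
      + (3 * e ^ 2 * c₀ * c₁ ^ 2 + 2 * R₀ * e * c₁ ^ 3)) = 0) : False := by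
  have y0 : y₀ = (4 * (2 * P ^ 2 * c₀ * c₁ - 2 * P * b₀ * b₁
      - 3 * (R₀ * (b₀ * c₁ + b₁ * c₀) + e * b₀ * c₀)) - 24 * a₀ * a₁) / 6 := by
    linear_combination (1 / 6) * hy0
  have y1 : y₁ = (4 * (P ^ 2 * c₁ ^ 2 - P * b₁ ^ 2
      - 3 * (R₀ * b₁ * c₁ + e * (b₀ * c₁ + b₁ * c₀))) - 12 * a₁ ^ 2) / 6 := by
    linear_combination (1 / 6) * hy1
  rw [y0] at f1
  rw [y0, y1] at f2
  rw [y1] at f4
  clear hy0 hy1 y0 y1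
  subst dP dR da0 da1 db0 db1 dc0 dc1
  have g4 : 12 * e * k ^ 3 * r ^ 2 * (k - 1) = G * q ^ 5 * (k ^ 2 - u) * (1 - u) ^ 2 := by
    have h : (e * r ^ 3 * G ^ 3 * k ^ 3) * (12 * e * k ^ 3 * r ^ 2 * (k - 1)
        - G * q ^ 5 * (k ^ 2 - u) * (1 - u) ^ 2) = 0 := by
      rw [← mul_zero (432 * q ^ 11 * (k ^ 2 - u)), ← f4]
      field_simp
      ring
    have := (mul_eq_zero.mp h).resolve_left (by positivity)
    linear_combination this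
  have hk1 : k ≠ 1 := by
    rintro rfl
    have h : (G * q ^ 5 * (1 ^ 2 - u)) * (1 - u) ^ 2 = 0 := by linear_combination -g4
    have h2 := (mul_eq_zero.mp h).resolve_left
      (mul_ne_zero (mul_ne_zero hG (pow_ne_zero 5 hq)) hd)
    have h3 : 1 - u = 0 := pow_eq_zero_iff (n := 2) (by norm_num) |>.mp h2
    apply hd
    linear_combination h3
  have hk1' : k - 1 ≠ 0 := sub_ne_zero.mpr hk1
  have e' : e = G * q ^ 5 * (k ^ 2 - u) * (1 - u) ^ 2 / (12 * k ^ 3 * r ^ 2 * (k - 1)) := by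
    field_simp
    linear_combination g4
  have h1 : u*(k^2-u)^2*(k-1)^2*(24*k+u*(k^2-4*k-8))+2*(k^2-u)*k*(k-1)*(u-1)^2*(2*k^2+4*u+u*k^2-2*u*k)+k^4*(u-1)^4 = 0 := by
    have h : (q ^ 2 * G ^ 2) * (u*(k^2-u)^2*(k-1)^2*(24*k+u*(k^2-4*k-8))+2*(k^2-u)*k*(k-1)*(u-1)^2*(2*k^2+4*u+u*k^2-2*u*k)+k^4*(u-1)^4) = 0 := by
      rw [← mul_zero (12 * r ^ 2 * k ^ 2 * (k - 1) ^ 2 * (k ^ 2 - u) ^ 2), ← f1, e']
      field_simp
      ring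
    exact (mul_eq_zero.mp h).resolve_left (by positivity)
  have h2 : (k-1)^2*u*(k^2-u)*(2*k^3*u+4*k*u^2-k^2*u^2-8*k^2*u+2*u^2+15*k^2-16*k*u+18*k)+(k-1)*(u-1)^2*k*(k^4*u-2*k^2*u^2+2*k^3*u+2*k*u^2-8*k^2*u-8*u^2+12*k^3+12*k*u-9*k^2)+(u-1)^4*k^2*(k^2+2*k-2) = 0 := by
    have h : (q * G ^ 3) * ((k-1)^2*u*(k^2-u)*(2*k^3*u+4*k*u^2-k^2*u^2-8*k^2*u+2*u^2+15*k^2-16*k*u+18*k)+(k-1)*(u-1)^2*k*(k^4*u-2*k^2*u^2+2*k^3*u+2*k*u^2-8*k^2*u-8*u^2+12*k^3+12*k*u-9*k^2)+(u-1)^4*k^2*(k^2+2*k-2)) = 0 := by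
      rw [← mul_zero (72 * r * k ^ 2 * (k - 1) ^ 2 * (k ^ 2 - u)), ← f2, e']
      field_simp
      ring
    exact (mul_eq_zero.mp h).resolve_left (by positivity)
  exact elm k u hk hk1 hu hd h1 h2

/-- The scalar system has no rational solution. -/
theorem noSc {n P R₀ e g a₀ a₁ b₀ b₁ c₀ c₁ w₀ w₁ w₂ q r : ℚ} (hn : n ≠ 0) (he : e ≠ 0)
    (hc : c₁ ≠ 0) (hP : P = 3 * n * q * r) (hR : R₀ = n * q ^ 3 + n ^ 2 * r ^ 3)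
    (i1 : a₀ + 2 * n * q * r * c₀ = 0) (i2 : b₀ * q + n * c₀ * r ^ 2 = 1)
    (i3 : b₀ * r + c₀ * q ^ 2 = 0)
    (S : Sc n P R₀ e g a₀ a₁ b₀ b₁ c₀ c₁ w₀ w₁ w₂) : False := by
  rcases eq_or_ne g 0 with hg | hg
  · subst hg
    exact sc_g0 he hc hP hR i1 i2 i3 S
  rcases eq_or_ne r 0 with hr | hr
  · subst hr
    exact sc_r0 (q := q) hn he hc hg (by rw [hP]; ring) (by rw [hR]; ring)
      (by linear_combination i1) (by linear_combination i2) (by linear_combination i3) S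
  rcases eq_or_ne q 0 with hq | hq
  · subst hq
    exact sc_q0 (r := r) hn he hc hg (by rw [hP]; ring) (by rw [hR]; ring)
      (by linear_combination i1) (by linear_combination i2) (by linear_combination i3) S
  obtain ⟨h2, h10, h11, h12, h13, h01, h02, h04, h05⟩ := S
  have hbd : b₀ * (q ^ 3 - n * r ^ 3) = q ^ 2 := by
    linear_combination q ^ 2 * i2 - n * r ^ 2 * i3
  have hcd : c₀ * (q ^ 3 - n * r ^ 3) = -r := by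
    linear_combination q * i3 - r * i2
  have hd : q ^ 3 - n * r ^ 3 ≠ 0 := by
    intro h
    rw [h, mul_zero] at hbd
    exact (pow_ne_zero 2 hq) hbd.symm
  have hw2 : g * w₂ = -2 * e * b₁ * c₁ := by linear_combination (1 / 6) * h13
  have hcb : g ^ 2 * c₁ = -3 * b₁ ^ 2 := by
    have : (4 * e ^ 2 * c₁ ^ 2) * (3 * b₁ ^ 2 + g ^ 2 * c₁) = 0 := by
      linear_combination g ^ 2 * h05 - 3 * (g * w₂ + -2 * e * b₁ * c₁) * hw2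
    have := (mul_eq_zero.mp this).resolve_left (by positivity)
    linear_combination this
  have hb1 : b₁ ≠ 0 := by
    rintro rfl
    have : g ^ 2 * c₁ = 0 := by linear_combination hcb
    exact (mul_ne_zero (pow_ne_zero 2 hg) hc) this
  have hb0' : b₀ = q ^ 2 / (q ^ 3 - n * r ^ 3) := eq_div_of_mul_eq hd hbd
  have hc0' : c₀ = -r / (q ^ 3 - n * r ^ 3) := eq_div_of_mul_eq hd hcd
  have hc1' : c₁ = -3 * b₁ ^ 2 / g ^ 2 := by field_simp; linear_combination hcb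
  have ha0' : a₀ = -2 * n * q * r * c₀ := by linear_combination i1
  have ha1' : a₁ = -(3 * g ^ 2 + 8 * P * c₁) / 12 := by linear_combination (1 / 12) * h2
  have hG : g ^ 2 ≠ 0 := pow_ne_zero 2 hg
  have dk : (6 * q ^ 2 * b₁ / (r * g ^ 2)) ^ 2 - 36 * n * q * r * b₁ ^ 2 / g ^ 4
      = 36 * q * b₁ ^ 2 * (q ^ 3 - n * r ^ 3) / (r ^ 2 * g ^ 4) := by
    field_simp
    ring
  refine main_param (q := q) (r := r) (G := g ^ 2) (k := 6 * q ^ 2 * b₁ / (r * g ^ 2))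
    (u := 36 * n * q * r * b₁ ^ 2 / g ^ 4) (e := e) (y₀ := g * w₀) (y₁ := g * w₁)
    hq hr hG ?_ ?_ ?_ he P R₀ a₀ a₁ b₀ b₁ c₀ c₁ ?_ ?_ ?_ ?_ ?_ ?_ ?_ ?_ ?_ ?_ ?_ ?_ ?_
  · exact div_ne_zero (mul_ne_zero (mul_ne_zero (by norm_num) (pow_ne_zero 2 hq)) hb1)
      (mul_ne_zero hr hG)
  · exact div_ne_zero (mul_ne_zero (mul_ne_zero (mul_ne_zero (mul_ne_zero (by norm_num) hn) hq) hr)
      (pow_ne_zero 2 hb1)) (pow_ne_zero 4 hg)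
  · rw [dk]
    exact div_ne_zero (mul_ne_zero (mul_ne_zero (mul_ne_zero (by norm_num) hq) (pow_ne_zero 2 hb1))
      hd) (mul_ne_zero (pow_ne_zero 2 hr) (pow_ne_zero 4 hg))
  · rw [hP]; field_simp <;> ring
  · rw [hR]; field_simp <;> ring
  · rw [dk, ha0', hc0']; field_simp <;> ring
  · rw [ha1', hP, hc1']; field_simp <;> ring
  · rw [dk, hb0']; field_simp <;> ring
  · field_simp <;> ring
  · rw [dk, hc0']; field_simp <;> ring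
  · rw [hc1']; field_simp <;> ring
  · linear_combination h11
  · linear_combination h12
  · linear_combination g ^ 2 * h01
  · linear_combination g ^ 2 * h02
  · linear_combination g ^ 2 * h04 - 6 * g * w₁ * hw2

end PF
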