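import Pool.Agent.Helper53.PF.St
import Pool.Agent.Helper53.PF.Scal

set_option linter.style.longLine false

/-!
# Part C (project PF): the relation is impossible over `ℚ`
-/

namespace PF

open Polynomial

theorem poly5 (p0 p1 p2 p3 p4 p5 : ℚ)
    (h : ∀ x : ℚ, p0 + p1 * x + p2 * x ^ 2 + p3 * x ^ 3 + p4 * x ^ 4 + p5 * x ^ 5 = 0) :
    p0 = 0 ∧ p1 = 0 ∧ p2 = 0 ∧ p3 = 0 ∧ p4 = 0 ∧ p5 = 0 := by
  have h0 := h 0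
  have h1 := h 1
  have h2 := h (-1)
  have h3 := h 2
  have h4 := h (-2)
  have h5 := h 3
  norm_num at h0 h1 h2 h3 h4 h5
  subst h0
  refine ⟨rfl, ?_, ?_, ?_, ?_, ?_⟩ <;> linarith

theorem crv_comp {n : ℚ} {s z w : ℚ[X]} (h : Crv n s z w) (τ : ℚ) :
    Crv n (s.comp (X + C τ)) (z.comp (X + C τ)) (w.comp (X + C τ)) := by
  refine ⟨?_, ?_, ?_, ?_⟩
  · rw [natDegree_comp, natDegree_X_add_C, mul_one, h.ds]
  · rw [natDegree_comp, natDegree_X_add_C, mul_one, h.dz]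
  · rw [natDegree_comp, natDegree_X_add_C, mul_one, h.dw]
  · have := congrArg (fun p : ℚ[X] => p.comp (X + C τ)) h.eq
    simpa [mul_comp, add_comp, pow_comp] using this

/-- Part C. -/
theorem partC (hI : StIND) (hC : StCMP) (hN : StNRM) (hD : StDVT) (hR : StREP)
    (n : ℚ) (hn : ∀ a : ℚ, a ^ 3 ≠ n) (s z w : ℚ[X]) (h : Crv n s z w)
    (b g d e' : ℚ) (hrel : w = C b * s ^ 2 + C g * z + C d * s + C e') : False := by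
  have hn0 : n ≠ 0 := fun h0 => hn 0 (by rw [h0]; norm_num)
  obtain ⟨τ, σ, q, r, a₀, a₁, b₀, b₁, c₀, c₁, hσ, hc, i1, i2, i3, hs, hz⟩ := hN hD hR n hn s z w h
  have hcrv := crv_comp h τ
  set S := s.comp (X + C τ) with hS
  set Z := z.comp (X + C τ) with hZ
  set W := w.comp (X + C τ) with hW
  have hw : W = (C b * X ^ 2 + C d * X + C e').comp S + C g * Z := by
    rw [hW, hrel]
    simp only [mul_comp, add_comp, pow_comp, C_comp, X_comp, hS, hZ]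
    ring
  obtain ⟨k2, k1, k0⟩ := hC hI n σ (3 * n * q * r) (n * q ^ 3 + n ^ 2 * r ^ 3) g S Z W
    (C a₀ + C a₁ * X) (C b₀ + C b₁ * X) (C c₀ + C c₁ * X) (C b * X ^ 2 + C d * X + C e')
    hcrv hσ hs hz hw
  have he : (1 / σ : ℚ) ≠ 0 := one_div_ne_zero hσ
  set e : ℚ := 1 / σ with hedef
  set P : ℚ := 3 * n * q * r with hP
  set R₀ : ℚ := n * q ^ 3 + n ^ 2 * r ^ 3 with hR0
  set w₀ : ℚ := e' + g * a₀ with hw0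
  set w₁ : ℚ := d + g * a₁ with hw1
  have E2 := poly5 (12 * a₀ + 8 * P * c₀) (12 * a₁ + 3 * g ^ 2 + 8 * P * c₁) 0 0 0 0 (fun x => by
    have := congrArg (eval x) k2
    simp only [eval_add, eval_sub, eval_mul, eval_pow, eval_C, eval_X, eval_ofNat, eval_zero] at this
    linear_combination this)
  have E1 := poly5 (12 * a₀ ^ 2 - 4 * (P ^ 2 * c₀ ^ 2 - P * b₀ ^ 2 - 3 * R₀ * b₀ * c₀))
    (6 * g * w₀ - (4 * (2 * P ^ 2 * c₀ * c₁ - 2 * P * b₀ * b₁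
      - 3 * (R₀ * (b₀ * c₁ + b₁ * c₀) + e * b₀ * c₀)) - 24 * a₀ * a₁))
    (6 * g * w₁ - (4 * (P ^ 2 * c₁ ^ 2 - P * b₁ ^ 2
      - 3 * (R₀ * b₁ * c₁ + e * (b₀ * c₁ + b₁ * c₀))) - 12 * a₁ ^ 2))
    (6 * g * b - -12 * e * b₁ * c₁) 0 0 (fun x => by
    have := congrArg (eval x) k1
    simp only [eval_add, eval_sub, eval_mul, eval_pow, eval_C, eval_X, eval_ofNat, eval_zero] at this
    rw [hw0, hw1]
    linear_combination this)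
  have E0 := poly5 (4 * a₀ ^ 3 - 4 * n + 4 * R₀ * (b₀ ^ 3 - P * b₀ * c₀ ^ 2 + R₀ * c₀ ^ 3))
    (12 * a₀ ^ 2 * a₁ + 3 * w₀ ^ 2 + 4 * (3 * R₀ * b₀ ^ 2 * b₁ + e * b₀ ^ 3
    - P * (R₀ * (b₁ * c₀ ^ 2 + 2 * b₀ * c₀ * c₁) + e * b₀ * c₀ ^ 2)
    + (2 * R₀ * e * c₀ ^ 3 + 3 * R₀ ^ 2 * c₀ ^ 2 * c₁)))
    (12 * a₀ * a₁ ^ 2 + 6 * w₀ * w₁ + 4 * (3 * R₀ * b₀ * b₁ ^ 2 + 3 * e * b₀ ^ 2 * b₁
    - P * (R₀ * (2 * b₁ * c₀ * c₁ + b₀ * c₁ ^ 2) + e * (b₁ * c₀ ^ 2 + 2 * b₀ * c₀ * c₁))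
    + (e ^ 2 * c₀ ^ 3 + 6 * R₀ * e * c₀ ^ 2 * c₁ + 3 * R₀ ^ 2 * c₀ * c₁ ^ 2)))
    (4 * a₁ ^ 3 + 3 * (w₁ ^ 2 + 2 * w₀ * b) + 1 + 4 * (R₀ * b₁ ^ 3 + 3 * e * b₀ * b₁ ^ 2
      - P * (R₀ * b₁ * c₁ ^ 2 + e * (2 * b₁ * c₀ * c₁ + b₀ * c₁ ^ 2))
      + (3 * e ^ 2 * c₀ ^ 2 * c₁ + 6 * R₀ * e * c₀ * c₁ ^ 2 + R₀ ^ 2 * c₁ ^ 3)))
    (6 * w₁ * b + 4 * (e * b₁ ^ 3 - P * e * b₁ * c₁ ^ 2
    + (3 * e ^ 2 * c₀ * c₁ ^ 2 + 2 * R₀ * e * c₁ ^ 3)))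
    (3 * b ^ 2 + 4 * e ^ 2 * c₁ ^ 3) (fun x => by
    have := congrArg (eval x) k0
    simp only [eval_add, eval_sub, eval_mul, eval_pow, eval_C, eval_X, eval_ofNat, eval_zero] at this
    rw [hw0, hw1]
    linear_combination this)
  obtain ⟨-, e21, -, -, -, -⟩ := E2
  obtain ⟨e10, e11, e12, e13, -, -⟩ := E1
  obtain ⟨-, e01, e02, -, e04, e05⟩ := E0
  exact noSc (n := n) (P := P) (R₀ := R₀) (e := e) (g := g) (a₀ := a₀) (a₁ := a₁) (b₀ := b₀)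
    (b₁ := b₁) (c₀ := c₀) (c₁ := c₁) (w₀ := w₀) (w₁ := w₁) (w₂ := b) (q := q) (r := r)
    hn0 he hc hP hR0 i1 i2 i3
    ⟨e21, by linear_combination e10, by linear_combination e11, by linear_combination e12,
      by linear_combination e13, e01, e02, e04, e05⟩

end PF
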