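import Pool.Agent.Helper53.PF.Rel
import Pool.Agent.Helper53.PF.PartC
import Pool.Agent.Helper10.PF.LCF
import Pool.Agent.Helper11.PF.CMP
import Pool.Agent.Helper15.PF.LNA
import Pool.Agent.Helper15.PF.TRC
import Pool.Agent.Helper16.PF.CHN
import Pool.Agent.Helper16.PF.PAR
import Pool.Agent.Helper28.PF.LNE
import Pool.Agent.Helper29.PF.DGA
import Pool.Agent.Helper29.PF.LNC
import Pool.Agent.Helper29.PF.MIN
import Pool.Agent.Helper33.PF.NRM
import Pool.Agent.Helper37.PF.DIB
import Pool.Agent.Helper39.PF.ABB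
import Pool.Agent.Helper40.PF.DIA
import Pool.Agent.Helper42.PF.DSC
import Pool.Agent.Helper62.PF.CST
import Pool.Agent.Helper62.PF.LNF
import Pool.Agent.Helper66.PF.REA
import Pool.Agent.Helper70.PF.REB
import Pool.Agent.Helper72.PF.VEX
import Pool.Agent.Helper79.PF.IND
import Pool.Agent.Helper80.PF.DGB
import Pool.Agent.Helper80.PF.LNB
import Pool.Agent.Helper81.PF.PRM
import Pool.Agent.Helper89.PF.ABA
import Pool.Agent.Helper93.PF.DGC
import Pool.Agent.Helper94.PF.LND
import Pool.Agent.Helper96.PF.REP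
import Pool.Agent.Helper98.PF.DVT

set_option linter.style.longLine false

/-!
# Final assembly (project PF)
-/

namespace PF

open Polynomial

theorem relHolds : StREL :=
  rel Helper16.holds_CHN Helper81.holds_PRM Helper15.holds_TRC Helper29.holds_DGA
    Helper80.holds_DGB Helper66.holds_REA Helper40.holds_DIA Helper70.holds_REB Helper37.holds_DIB
    Helper72.holds_VEX Helper89.holds_ABA Helper39.holds_ABB Helper96.holds_REP Helper79.holds_IND
    Helper29.holds_MIN Helper16.holds_PAR Helper15.holds_LNA Helper80.holds_LNB Helper29.holds_LNC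
    Helper94.holds_LND Helper28.holds_LNE Helper62.holds_LNF

theorem noCurve (n : ℚ) (hn : ∀ a : ℚ, a ^ 3 ≠ n) (s z w : ℚ[X]) (h : Crv n s z w) : False := by
  obtain ⟨b, g, d, e, hr⟩ := Helper42.holds_DSC relHolds n hn s z w h
  exact partC Helper79.holds_IND Helper11.holds_CMP Helper33.holds_NRM Helper98.holds_DVT
    Helper96.holds_REP n hn s z w h b g d e hr

theorem final (n : ℚ) (hn : ∀ a : ℚ, a ^ 3 ≠ n) (x y z : ℚ[X]) (hx : x.natDegree ≤ 8)
    (hy : y.natDegree ≤ 8) (hz : z.natDegree ≤ 8)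
    (hnc : ¬(x.natDegree = 0 ∧ y.natDegree = 0 ∧ z.natDegree = 0))
    (h : x ^ 3 + y ^ 3 + z ^ 3 = C n) : Fam n x y z :=
  mainQ noCurve Helper10.holds_LCF Helper98.holds_DVT Helper93.holds_DGC Helper62.holds_CST
    n hn x y z hx hy hz hnc h

end PF
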