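import Pool.Agent.Helper53.PF.St

set_option linter.style.longLine false

/-!
# Assembly of `StREL` (project PF)
-/

namespace PF

open Polynomial

theorem rel (CHN : StCHN) (PRM : StPRM) (TRC : StTRC) (DGA : StDGA) (DGB : StDGB) (REA : StREA)
    (DIA : StDIA) (REB : StREB) (DIB : StDIB) (VEX : StVEX) (ABA : StABA) (ABB : StABB)
    (REP : StREP) (IND : StIND) (MIN : StMIN) (PAR : StPAR) (LNA : StLNA) (LNB : StLNB)
    (LNC : StLNC) (LND : StLND) (LNE : StLNE) (LNF : StLNF) : StREL := by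
  intro k _ _ κ n hκ hn s z w h
  have hn0 : n ≠ 0 := fun h0 => hn 0 (by rw [h0]; norm_num)
  have hn2 : ∀ a : k, a ^ 3 ≠ n ^ 2 := by
    intro a ha
    have ha0 : a ≠ 0 := by
      rintro rfl
      have h0 : n ^ 2 = 0 := by rw [← ha]; norm_num
      exact (pow_ne_zero 2 hn0) h0
    apply hn (n / a)
    rw [div_pow, ha]
    field_simp
  have P1 := PRM k n hn
  have P2 := PRM k (n ^ 2) hn2
  -- first descent
  obtain ⟨C₁, p, q, c, i, hc, hC, hCd, hN, hv⟩ := REA k n hn P1 s z w h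
  obtain ⟨p', q', c', hc', hN', hv'⟩ := DIA k κ n hκ P1 s z w h i p q C₁ c hc hN hv
  have hCc : (C c' : k[X][X]) ≠ 0 := by simpa using hc'
  have hne : ¬(p' = 0 ∧ q' = 0) := by
    rintro ⟨rfl, rfl⟩
    have : N1 n (0 : k[X][X]) 0 = 0 := by simp [N1]
    rw [this] at hN'
    exact (mul_ne_zero hCc hC) hN'.symm
  have hdeg : (N1 n p' q').natDegree ≤ 9 := by
    rw [hN']
    calc (C c' * C₁).natDegree ≤ C₁.natDegree := natDegree_C_mul_le _ _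
      _ ≤ 9 := hCd
  obtain ⟨dp, dq⟩ := ((DGA k n p' q').2).mp hdeg
  -- second descent
  obtain ⟨C₂, p₂, q₂, c₂, i₂, hc₂, hC₂, hCd₂, hN₂, hv₂⟩ := REB k κ n hκ P2 s z w h
  obtain ⟨p₃, q₃, c₃, hc₃, hN₃, hv₃⟩ := DIB k κ n hκ P2 s z w h i₂ p₂ q₂ C₂ c₂ hc₂ hN₂ hv₂
  have hCc₃ : (C c₃ : k[X][X]) ≠ 0 := by simpa using hc₃
  have hne₃ : ¬(p₃ = 0 ∧ q₃ = 0) := by
    rintro ⟨rfl, rfl⟩
    have : N2 κ n (0 : k[X][X]) 0 = 0 := by simp [N2]
    rw [this] at hN₃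
    exact (mul_ne_zero hCc₃ hC₂) hN₃.symm
  have hdeg₃ : (N2 κ n p₃ q₃).natDegree ≤ 9 := by
    rw [hN₃]
    calc (C c₃ * C₂).natDegree ≤ C₂.natDegree := natDegree_C_mul_le _ _
      _ ≤ 9 := hCd₂
  obtain ⟨dp₃, dq₃⟩ := ((DGB k κ n p₃ q₃).2).mp hdeg₃
  obtain ⟨V, V₀, V₁, V₂, hV, hVs, d0, d1, d2⟩ := VEX k n s z w h
  have hV1 := ABA CHN TRC DGA k n s z w h V V₀ V₁ V₂ hV hVs d0 d1 d2 p' q' hne dp dq hv'
  have hV0 := ABB CHN TRC DGB k κ n s z w hκ h V V₀ V₁ V₂ hV hVs d0 d1 d2 p₃ q₃ hne₃ dp₃ dq₃ hv₃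
  have e1 : V₁.natDegree ≤ 1 := by
    rw [natDegree_le_iff_coeff_eq_zero]
    intro N hN
    rcases Nat.lt_or_ge N 3 with h3 | h3
    · have : N = 2 := by omega
      rw [this]; exact hV1
    · exact coeff_eq_zero_of_natDegree_lt (by omega)
  have e0 : V₀.natDegree ≤ 1 := by
    rw [natDegree_le_iff_coeff_eq_zero]
    intro N hN
    rcases Nat.lt_or_ge N 3 with h3 | h3
    · have : N = 2 := by omega
      rw [this]; exact hV0
    · exact coeff_eq_zero_of_natDegree_lt (by omega)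
  have f0 := eq_X_add_C_of_natDegree_le_one e0
  have f1 := eq_X_add_C_of_natDegree_le_one e1
  have f2 := eq_X_add_C_of_natDegree_le_one d2
  have hVab : V = (C (V₀.coeff 0) + C (V₁.coeff 0) * X + C (V₂.coeff 0) * X ^ 2).comp s
      + (C (V₀.coeff 1) + C (V₁.coeff 1) * X + C (V₂.coeff 1) * X ^ 2).comp s * X := by
    rw [hVs]
    conv_lhs => rw [f0, f1, f2]
    simp only [add_comp, mul_comp, pow_comp, C_comp, X_comp]
    ring
  obtain ⟨M, hM, hM3, hMv⟩ := MIN REP k s z h.ds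
  obtain ⟨D, a, b, c', hD, hrel⟩ := PAR REP IND k s z w h.ds h.dz
  by_cases hcc : c' = 0
  · subst hcc
    refine LNA IND k n s z w h M hM hM3 hMv D a b hD ?_
    rw [hrel]; simp
  · exfalso
    obtain ⟨β, hβ⟩ := LNB IND k n s z w h M hM hM3 hMv D a b c' hrel
    have hG := LNC CHN k n s z w h V hV D a b c' hD hrel
    have hG0 := LND TRC IND k n s z h.ds h.dz M hM hM3 hMv V _ _ hVab D a b c' β hcc hβ hG
    have hode := LNE IND k n s z h.ds h.dz M hM hM3 hMv D a b c' β hD hcc hβ hG0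
    exact LNF k n hn0 M D a b c' β hD hcc hβ hode

/-- the three polynomials are a permutation of Mordell's family. -/
def Fam (n : ℚ) (x y z : ℚ[X]) : Prop := ∃ (c : ℚ) (h : ℚ[X]), n = 2 * c ^ 3 ∧
  ((x = C c * (1 - 6 * h ^ 3) ∧ y = C c * (1 + 6 * h ^ 3) ∧ z = C (-6 * c) * h ^ 2) ∨
   (x = C c * (1 - 6 * h ^ 3) ∧ z = C c * (1 + 6 * h ^ 3) ∧ y = C (-6 * c) * h ^ 2) ∨
   (y = C c * (1 - 6 * h ^ 3) ∧ z = C c * (1 + 6 * h ^ 3) ∧ x = C (-6 * c) * h ^ 2))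

theorem mainQ (hno : ∀ n : ℚ, (∀ a : ℚ, a ^ 3 ≠ n) → ∀ s z w : ℚ[X], Crv n s z w → False)
    (LCF : StLCF) (DVT : StDVT) (DGC : StDGC) (CST : StCST)
    (n : ℚ) (hn : ∀ a : ℚ, a ^ 3 ≠ n) (x y z : ℚ[X]) (hx : x.natDegree ≤ 8)
    (hy : y.natDegree ≤ 8) (hz : z.natDegree ≤ 8)
    (hnc : ¬(x.natDegree = 0 ∧ y.natDegree = 0 ∧ z.natDegree = 0))
    (h : x ^ 3 + y ^ 3 + z ^ 3 = C n) : Fam n x y z := by
  have key : ∀ x y z : ℚ[X], x ^ 3 + y ^ 3 + z ^ 3 = C n → x.natDegree ≤ 8 →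
      (0 < x.natDegree ∧ y.natDegree = x.natDegree ∧
      z.natDegree < x.natDegree ∧ (x + y).natDegree < x.natDegree) → IsM n x y z := by
    intro x y z h h8 ⟨h1, h2, h3, h4⟩
    obtain ⟨g1, g2, g3, g4⟩ := DGC DVT n hn x y z h h1 h8 h2 h3 h4
    rcases g4 with g | ⟨g, g', g''⟩
    · exact CST n x y z h g g1 g3
    · exfalso
      refine hno n hn (x + y) z (x - y) ⟨g, g', g'', ?_⟩
      have e : C (4 * n) = (4 : ℚ[X]) * C n := by
        rw [C_mul, map_ofNat]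
      rw [e, ← h]; ring
  rcases LCF n x y z h hnc with hh | hh | hh
  · obtain ⟨c, t, e1, e2, e3, e4⟩ := key x y z h hx hh
    exact ⟨c, t, e1, Or.inl ⟨e2, e3, e4⟩⟩
  · obtain ⟨c, t, e1, e2, e3, e4⟩ := key x z y (by rw [← h]; ring) hx hh
    exact ⟨c, t, e1, Or.inr (Or.inl ⟨e2, e3, e4⟩)⟩
  · obtain ⟨c, t, e1, e2, e3, e4⟩ := key y z x (by rw [← h]; ring) hy hh
    exact ⟨c, t, e1, Or.inr (Or.inr ⟨e2, e3, e4⟩)⟩

end PF
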