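import Mathlib

set_option linter.style.longLine false

/-!
# Project PF (MP_ad0dc2_nt): polynomial families for x^3 + y^3 + z^3 = n

THEOREM (target).  Let `n : ℚ` be not a cube.  If `x, y, z : ℚ[X]` are not all constant, have
degree at most 8 and `x^3 + y^3 + z^3 = n`, then `n = 2 c^3` and `(x, y, z)` is, up to order,
`(c (1 - 6 h^3), -6 c h^2, c (1 + 6 h^3))` for some `c : ℚ`, `h : ℚ[X]`.

Throughout `k : Type` is a field of characteristic 0.  In `k[X][X]` the inner variable is called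
`v` (or `s`) and the outer variable `Z`; so its degree (called Z-degree) is `natDegree`.  All statements are
independent; a statement another one needs is a hypothesis of it (as `StXXX →`).
Every module proves one statement: file `Pool/Agent/<You>/PF/XXX.lean`, `import
Pool.Agent.Helper53.PF.St`, namespace `PF.<You>`, `theorem holds_XXX : PF.StXXX`.
-/

namespace PF

open Polynomial

/-- `ev v y P = P(v, y)`: the inner variable goes to `v`, the outer variable to `y`. -/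
noncomputable def ev {k : Type} [Field k] (v y : k[X]) : k[X][X] →+* k[X] :=
  eval₂RingHom (compRingHom v) y

/-- partial derivative in the inner variable `v` (the one in the outer variable is `derivative`). -/
noncomputable def dV {k : Type} [Field k] (P : k[X][X]) : k[X][X] :=
  P.sum fun i a => monomial i (derivative a)

/-- polynomials `s, z, w` of degrees 3, 5, 6 on the curve `3 s w^2 + s^3 + 4 z^3 = 4 n`. -/
structure Crv {k : Type} [Field k] (n : k) (s z w : k[X]) : Prop where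
  ds : s.natDegree = 3
  dz : z.natDegree = 5
  dw : w.natDegree = 6
  eq : 3 * s * w ^ 2 + s ^ 3 + 4 * z ^ 3 = C (4 * n)

/-- The norm form of the first descent: `N1 = 3 v p^2 - q^2 (4 (n - Z^3) - v)`. -/
noncomputable def N1 {k : Type} [Field k] (n : k) (p q : k[X][X]) : k[X][X] :=
  3 * C X * p ^ 2 - q ^ 2 * (4 * (C (C n) - X ^ 3) - C X)

/-- `c_v = 2 κ (v - 2 n)` -/
noncomputable def cV {k : Type} [Field k] (κ n : k) : k[X][X] := C (C (2 * κ) * (X - C (2 * n)))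

/-- `g_2 = (4/3) (n^2 - Z^3)` -/
noncomputable def g2 {k : Type} [Field k] (n : k) : k[X][X] :=
  C (C (4 / 3)) * (C (C (n ^ 2)) - X ^ 3)

/-- The norm form of the second descent: `N2 = p^2 + c_v p q - g_2 q^2`. -/
noncomputable def N2 {k : Type} [Field k] (κ n : k) (p q : k[X][X]) : k[X][X] :=
  p ^ 2 + cV κ n * p * q - g2 n * q ^ 2

/-! ## Part B: `w` is a combination of `s^2, z, s, 1` -/

/-- MODULE CHN (40 lines).  Chain rule.  PROOF.  `dV` is additive and `dV (monomial i a) =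
monomial i (derivative a)`, so coefficientwise `(dV P).coeff i = derivative (P.coeff i)` (sum_def,
coeff_monomial), which gives the degree bound.  Chain rule: both sides additive in `P`, so
`Polynomial.induction_on'` reduces to `P = monomial i a`: `ev v y P = (a.comp v) y^i` and
`(a.comp v)' = a'.comp v * v'` (`derivative_comp`), `(y^i)' = i y^(i-1) y'`. -/
def StCHN : Prop := ∀ (k : Type) [Field k],
  (∀ (P : k[X][X]) (i : ℕ), (dV P).coeff i = derivative (P.coeff i)) ∧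
  (∀ P : k[X][X], (dV P).natDegree ≤ P.natDegree) ∧
  (∀ (v y : k[X]) (P : k[X][X]), derivative (ev v y P) =
    ev v y (derivative P) * derivative y + ev v y (dV P) * derivative v)

/-- MODULE PRM (40 lines).  PROOF.  `X^3 - C m` is irreducible in `k[X]` (`X_pow_sub_C_irreducible_of_prime`,
`Nat.prime_three`), hence prime, hence `C (X^3 - C m)` is prime in `k[X][X]` (`Polynomial.prime_C_iff`),
and the automorphism `Polynomial.Bivariate.swap` of `k[X][X]` (a `≃ₐ`) sends it to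
`(X^3 - C m).map C = X^3 - C (C m)`; ring isomorphisms preserve primes (`MulEquiv.prime_iff`). -/
def StPRM : Prop := ∀ (k : Type) [Field k] (m : k), (∀ a : k, a ^ 3 ≠ m) →
  Prime (X ^ 3 - C (C m) : k[X][X])

/-- MODULE TRC (180 lines, the Euler trace formula).  PROOF.  Let `L = RatFunc k`, `ι : k[X] → L`,
`K = k⟮ι v⟯ ≤ L`; `[L : K] = m` (`RatFunc.finrank_eq_max_natDegree`; for `d = natDegree y ≥ 1` also
`[L : k⟮ι y⟯] = d`).  Then `ι y` generates `L` over `K`: `M = K(ι y)` has `[L : M]` dividing `m`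
and `d` (as `M ⊇ k⟮ι y⟯`), so it is 1 (if `d = 0` then `m = 1` and `K = L`).  Let `ψ : k[X] → K` be
`c ↦ c(v)` (`aeval` at the generator), injective since `v` is nonconstant (`comp` with a
nonconstant polynomial is injective), so `aeval (ι y) (P.map ψ) = ι (ev v y P)`.
Let `μ = minpoly K (ι y)`, of degree `m`.  `N.map ψ ≠ 0` has degree `≤ m` and the root `ι y`, so it is
`C c * μ` with `c = ψ (N.coeff m) ≠ 0`; hence `ι (ev v y N') = c μ'(ι y)`.  Similarly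
`T = v.map C - C X : k[X][X]` has `ev v X T = 0`, degree `m`, `m`-th coefficient `C v.leadingCoeff`,
`ev v X T' = v'`, so with `μ_t = minpoly K (ι X)` (degree `m`): `ι v' = lc μ_t'(ι X)`, `lc = ψ (C lc(v))`.
EULER: for a power basis of `L/K` with generator `g` of degree `m` and `f` its minimal polynomial
(`L/K` is separable, char 0), `Tr_{L/K} (g^i / f'(g)) = 1` if `i = m - 1` and `0` if `i < m - 1`:
`Module.Basis.traceDual_powerBasis_eq` with index `m - 1` (the coefficient of `minpolyDiv` there is 1)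
and `Module.Basis.trace_traceDual_mul`.  So for `P : k[X][X]` with natDegree `< m`:
`Tr (ι (ev v y P) / μ'(ι y)) = ψ (P.coeff (m-1))` and the same for `(X, μ_t)` in place of `(y, μ)`.
The hypothesis says `ι (ev v X H) * c * μ'(ι y) = ι (ev v y G) * lc * μ_t'(ι X)`, i.e.
`c * (ι (ev v X H) / μ_t'(ι X)) = lc * (ι (ev v y G) / μ'(ι y))`; take traces:
`c ψ (H.coeff (m-1)) = lc ψ (G.coeff (m-1))`, and `ψ` is injective. -/
def StTRC : Prop := ∀ (k : Type) [Field k] [CharZero k] (m : ℕ) (v y : k[X]) (N G H : k[X][X]),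
  0 < m → v.natDegree = m → Nat.Coprime y.natDegree m → N ≠ 0 → N.natDegree ≤ m →
  ev v y N = 0 → G.natDegree < m → H.natDegree < m →
  ev v X H * ev v y (derivative N) = ev v y G * derivative v →
  N.coeff m ≠ 0 ∧ H.coeff (m - 1) * N.coeff m = C v.leadingCoeff * G.coeff (m - 1)

/-- MODULE DGA (60 lines).  Z-degree of `N1`.  PROOF.  The Z-degree of `3 v p^2` is `2 natDegree p` (even)
and that of `q^2 (4 (n - Z^3) - v)` is `2 natDegree q + 3` (odd; the leading coefficient is `-4` times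
a square), so if `p, q` are both nonzero the leading terms do not cancel
(`natDegree_sub_eq_left_of_natDegree_lt` etc.); the cases `p = 0`, `q = 0` are direct. -/
def StDGA : Prop := ∀ (k : Type) [Field k] [CharZero k] (n : k) (p q : k[X][X]),
  (¬(p = 0 ∧ q = 0) → N1 n p q ≠ 0) ∧
  ((N1 n p q).natDegree ≤ 9 ↔ p.natDegree ≤ 4 ∧ q.natDegree ≤ 3)

/-- MODULE DGB (70 lines).  Z-degree of `N2`.  PROOF.  Let `a, b` be the degrees of `p, q` (both nonzero; the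
cases `p = 0`, `q = 0` are direct).  The three terms have degrees `2a`, `≤ a + b`, `2b + 3`.
If `2a > 2b + 3` then `a ≥ b + 2`, so `a + b < 2a` and the degree of `N2` is `2a`.  If `2a < 2b + 3`
then `a ≤ b + 1`, `a + b < 2b + 3`, and the degree is `2b + 3`.  (Never equal: parity.) -/
def StDGB : Prop := ∀ (k : Type) [Field k] [CharZero k] (κ n : k) (p q : k[X][X]),
  (¬(p = 0 ∧ q = 0) → N2 κ n p q ≠ 0) ∧
  ((N2 κ n p q).natDegree ≤ 9 ↔ p.natDegree ≤ 4 ∧ q.natDegree ≤ 3)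

/-- MODULE REA (250 lines).  The first pair (`n` not a cube).  Notation: `π = Z^3 - n`.
PROOF.  Let `ζ = z.leadingCoeff`, `σ = s.leadingCoeff`.
(0) For formal degrees: if `f.natDegree ≤ m`, `g_i.natDegree ≤ n_i` then `resultant f (g₁ g₂) m (n₁+n₂) =
resultant f g₁ m n₁ * resultant f g₂ m n₂` (from `resultant_mul_right`, `resultant_add_right_deg`).
(1) Over the ring `A = k[Z][W] = k[X][X]` (inner `Z`, outer `W`) let, with `j = C.comp C : k → A`,
`Φ = resultant (z.map j - C (C X)) (s.map j * C X - w.map j) 5 6 : A`, i.e. `Res_T (z(T) - Z, s(T) W - w(T))`.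
Its W-degree is `≤ 5` (over an algebraically closed field containing `k[Z]` it is
`ζ^6 ∏_{i<5} (s(T_i) W - w(T_i))`, `T_i` the roots of `z(T) = Z`, `resultant_eq_prod_eval`; or Sylvester matrix).
Let `φ_j = Φ.coeff j ∈ k[Z]`, seen in `R = k[v][Z]` by `Polynomial.map C`; `v = C X`,
`g = 4 (n - Z^3) - v ∈ R`, `p₀ = 9 v² φ₀ + 3 v g φ₂ + g² φ₄`, `q₀ = 9 v² φ₁ + 3 v g φ₃ + g² φ₅`.
(2) For every ring hom `θ : R → S` (S commutative) and `W₀ ∈ S` with `3 θ(v) W₀² = θ(g)`: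
`θ p₀ + θ q₀ W₀ = 9 θ(v)² Φ(θ Z, W₀)`, and `Φ(θ Z, W₀) = Res_T (z(T) - θ Z, s(T) W₀ - w(T))` (degrees 5, 6;
`resultant_map_map`).
(3) `S = RatFunc k` (or the fraction field), `θ = ι ∘ ev (s^3) z`, `W₀ = ι w / ι s` (indeed
`3 s^3 w²/s² = 3 s w² = 4 n - 4 z³ - s³`).  Both polynomials vanish at `T = t` (`t = ι X`), so their
resultant is 0 (`exists_mul_add_mul_eq_C_resultant`, evaluate at `t`).  So `ev p₀ * s + ev q₀ * w = 0`.
(4) `S = Ω` an algebraic closure of the fraction field of `R`, `θ` injective, `W₀` a square root of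
`g/(3v)` (`IsAlgClosed.exists_pow_nat_eq`).  Apply (2) to `W₀` and `-W₀` and multiply:
`N1 p₀ q₀ = 3 v (p₀² - q₀² W₀²) = (3v)^5 Φ(W₀) Φ(-W₀)`.  Let `S₀ = Res_T (z - Z, s)` (degrees 5, 3).
By (0), `S₀ N1 p₀ q₀ = Res (z - Z, 3 v s (s W₀ - w)(-s W₀ - w))` (degrees 5, 15) and
`3 v s (w² - s² W₀²) = v (4n - 4 z(T)³ - s(T)³) - s(T)³ (4 (n - Z³) - v) = 4 (n - Z³)(v - s(T)³) -
4 v (z(T)³ - Z³)`; the last term is a multiple of `z(T) - Z` (quotient of degree 10), so it can be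
dropped (`resultant_add_mul_right`): `S₀ N1 p₀ q₀ = (4 (n - Z³))^5 ζ^6 C̃`,
`C̃ = Res_T (z(T) - Z, v - s(T)³)` (degrees 5, 9).  All terms are in `R`, so this holds in `R`.
(5) In the same way `S₀ Res (z - Z, 3 w² + s²) = Res (z - Z, 4n - 4 z(T)³) = (4 (n - Z³))^5 ζ^15`
(degrees 5, 12, 15).  So `S₀ S₁ = c π^5` with `c` a nonzero constant; `π` is prime, so `S₁` is
associated to some `π^i` (`dvd_prime_pow`).  Cancel `S₀ ≠ 0`: `N1 p₀ q₀ = const * S₁ * C̃`.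
(6) `C̃ ≠ 0` has Z-degree `≤ 9`: over an algebraic closure `F` of `k(v)`, `C̃ = ± Res (v - s(T)³, z(T) - Z)`
(degrees 9, 5; `resultant_comm`) `= ± (σ³)^5 ∏_τ (z(τ) - Z)` over the 9 roots `τ ∈ F` of `s(T)³ = v`
(`resultant_eq_prod_eval` over the domain `F[Z]`).  Take `C₁ = unit * C̃`. -/
def StREA : Prop := ∀ (k : Type) [Field k] [CharZero k] (n : k), (∀ a : k, a ^ 3 ≠ n) →
  Prime (X ^ 3 - C (C n) : k[X][X]) → ∀ s z w : k[X], Crv n s z w →
  ∃ (C₁ p q : k[X][X]) (c : k[X]) (i : ℕ), c ≠ 0 ∧ C₁ ≠ 0 ∧ C₁.natDegree ≤ 9 ∧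
    N1 n p q = C c * (X ^ 3 - C (C n)) ^ i * C₁ ∧ ev (s ^ 3) z p * s + ev (s ^ 3) z q * w = 0

/-- MODULE DIA (100 lines).  The first descent.  PROOF.  Induction on `i`; `i = 0` is trivial.  Step:
`π = Z^3 - n` divides `N1 p q = 3 v p² + v q² - 4 (n - Z³) q² = 3 v p² + v q² + 4 π q²`, and `q² = -3 κ² q²`, so
`π ∣ 3 v (p - κ q)(p + κ q)`; `π` is prime and does not divide `3 v` (degree 0 in `Z`, nonzero;
`v = C X`), so `p + ε κ q = π h` with `ε = 1` or `-1`.  Put `p' = q - (3/4) ε κ v h`, `q' = -(3/4) v h`.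
Then `3 v N1 p q = 4 π N1 p' q'` (`linear_combination` with `p = π h - ε κ q`, `3 κ² = -1`), so
`N1 p' q' = (3/4) v c π^(i-1) C₁` (cancel `π`).  Vanishing: on the curve
`4 π(z) = 4 z³ - 4 n = - 3 s w² - s³ = - 3 s (w - κ s)(w + κ s)` and
`s (p s + q w) = (w - ε κ s)(p' s + q' w)` (values at `(s^3, z)`), and `w ∓ κ s ≠ 0` as the degrees are
6 and 3.  So `p' s + q' w = 0`. -/
def StDIA : Prop := ∀ (k : Type) [Field k] [CharZero k] (κ n : k), 3 * κ ^ 2 + 1 = 0 →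
  Prime (X ^ 3 - C (C n) : k[X][X]) → ∀ s z w : k[X], Crv n s z w →
  ∀ (i : ℕ) (p q C₁ : k[X][X]) (c : k[X]), c ≠ 0 →
    N1 n p q = C c * (X ^ 3 - C (C n)) ^ i * C₁ → ev (s ^ 3) z p * s + ev (s ^ 3) z q * w = 0 →
  ∃ (p' q' : k[X][X]) (c' : k[X]), c' ≠ 0 ∧ N1 n p' q' = C c' * C₁ ∧
    ev (s ^ 3) z p' * s + ev (s ^ 3) z q' * w = 0

/-- MODULE REB (230 lines).  The second pair; `x = s z` (degree 8), `a = s² w + κ (s³ - 2n)` (degree 12),
so that `a² = c_v a + g_2` at `(v, Z) = (s³, x)`: `a(T)² = 2κ (s(T)³ - 2n) a(T) + (4/3)(n² - x(T)³)`.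
PROOF (as for REA, see there for (0); here `π₂ = Z^3 - n²`).  Let `ξ = x.leadingCoeff`.
(1) Over `A = k[Z][U] = k[X][X]` (inner `Z`, outer `U`): `Φ = Res_T (x(T) - Z, U - a(T))` (degrees 8, 12).
Let `Φ'` be its image in `R[U]`, `R = k[v][Z]`, and `Φ' = (U² - c_v U - g_2) Q + p₀ + q₀ U`
(`modByMonic`, the remainder has degree `< 2`), `p₀, q₀ ∈ R`.
(2) For every ring hom `θ : R → S` and `U₀ ∈ S` with `U₀² = θ(c_v) U₀ + θ(g_2)`:
`θ p₀ + θ q₀ U₀ = Res_T (x(T) - θ Z, U₀ - a(T))`.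
(3) `S = k[X]`, `θ = ev (s^3) (s z)`, `U₀ = a`: both polynomials vanish at `T = t = X`, so the resultant is 0
(`exists_mul_add_mul_eq_C_resultant`): `ev p₀ + ev q₀ * a = 0`.
(4) `S = Ω` an algebraic closure of the fraction field of `R`, `θ` injective, `U₀` a root of
`U² - c_v U - g_2`, `U₁ = c_v - U₀` the other root, `U₀ U₁ = - g_2`:
`N2 p₀ q₀ = (p₀ + q₀ U₀)(p₀ + q₀ U₁) = Res (x - Z, (U₀ - a)(U₁ - a))` (degrees 8, 24) and
`(U₀ - a)(U₁ - a) = - g_2(Z) - c_v a + a² = (g_2(x(T)) - g_2(Z)) + 2 κ (s(T)³ - v) a(T)`, where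
`g_2(x(T)) - g_2(Z) = -(4/3)(x(T)³ - Z³)` is a multiple of `x(T) - Z` with quotient of degree 16.
So `N2 p₀ q₀ = (2κ)^8 ξ^3 A₀ C̃`, `A₀ = Res (x - Z, a)` (degrees 8, 12), `C̃ = Res (x - Z, s(T)³ - v)`
(degrees 8, 9), and this holds in `R`.
(5) With `a₁ = a - 2κ (s³ - 2n)` (degree 12), `a a₁ = g_2(x(T))`, so `A₀ Res (x - Z, a₁) = Res (x - Z, g_2(x(T))) =
Res (x - Z, C (g_2(Z))) = g_2(Z)^8 ξ^24` (degrees 8, 24) `= const * π₂^8`.  `π₂` is prime, so `A₀` is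
associated to some `π₂^i` (`dvd_prime_pow`).
(6) `C̃ ≠ 0` has Z-degree `≤ 9`: as in REA (6): up to sign it is `Res (s(T)³ - v, x(T) - Z)` (degrees 9, 8) `=
(σ³)^8 ∏_τ (x(τ) - Z)` over the 9 roots `τ` of `s(T)³ = v` in an algebraic closure of `k(v)`. -/
def StREB : Prop := ∀ (k : Type) [Field k] [CharZero k] (κ n : k), 3 * κ ^ 2 + 1 = 0 →
  Prime (X ^ 3 - C (C (n ^ 2)) : k[X][X]) → ∀ s z w : k[X], Crv n s z w →
  ∃ (C₁ p q : k[X][X]) (c : k[X]) (i : ℕ), c ≠ 0 ∧ C₁ ≠ 0 ∧ C₁.natDegree ≤ 9 ∧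
    N2 κ n p q = C c * (X ^ 3 - C (C (n ^ 2))) ^ i * C₁ ∧
    ev (s ^ 3) (s * z) p + ev (s ^ 3) (s * z) q * (s ^ 2 * w + C κ * (s ^ 3 - C (2 * n))) = 0

/-- MODULE DIB (100 lines).  The second descent.  PROOF.  Induction on `i`.  Let `π₂ = Z^3 - n²`, so
`g_2 = -(4/3) π₂` and `N2 p q = p (p + c_v q) + (4/3) π₂ q²`.  `π₂` prime divides `p` or `p + c_v q`.
Case `p = π₂ h`: `p' = q + (3/4) h c_v`, `q' = -(3/4) h`.  Case `p + c_v q = π₂ h`: `p' = -q`,
`q' = (3/4) h`.  In both cases `N2 p q = (4/3) π₂ N2 p' q'` (ring identities), so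
`N2 p' q' = (3/4) c π₂^(i-1) C₁`.  Vanishing: with `a = s² w + κ (s³ - 2n)`, `c = ev c_v = 2κ (s³ - 2n)`, the curve
equation gives `a² = c a - (4/3)(x³ - n²)` (`x = s z`), and `p + q a = a (p' + q' a)` in the first case,
`p + q a = (c - a)(p' + q' a)` in the second (values at `(s^3, s z)`).  `a ≠ 0` and `c - a ≠ 0` by
degrees (12 against 9).  So `p' + q' a = 0`. -/
def StDIB : Prop := ∀ (k : Type) [Field k] [CharZero k] (κ n : k), 3 * κ ^ 2 + 1 = 0 →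
  Prime (X ^ 3 - C (C (n ^ 2)) : k[X][X]) → ∀ s z w : k[X], Crv n s z w →
  ∀ (i : ℕ) (p q C₁ : k[X][X]) (c : k[X]), c ≠ 0 →
    N2 κ n p q = C c * (X ^ 3 - C (C (n ^ 2))) ^ i * C₁ →
    ev (s ^ 3) (s * z) p + ev (s ^ 3) (s * z) q * (s ^ 2 * w + C κ * (s ^ 3 - C (2 * n))) = 0 →
  ∃ (p' q' : k[X][X]) (c' : k[X]), c' ≠ 0 ∧ N2 κ n p' q' = C c' * C₁ ∧
    ev (s ^ 3) (s * z) p' + ev (s ^ 3) (s * z) q' * (s ^ 2 * w + C κ * (s ^ 3 - C (2 * n))) = 0

/-- MODULE VEX (90 lines).  PROOF.  Modulo `w`: `4 z³ ≡ 4n - s³`; differentiating the curve,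
`3 s² s' + 12 z² z' ≡ 0`, so `s² s' z ≡ -4 z³ z' ≡ -(4n - s³) z'`: `w` divides
`E = (4n - s³) z' + s² s' z`.  Explicitly `E = w V` with `V = 3 s w z' - z s' w - 2 s z w'`
(`linear_combination` of the curve equation times `z'` and `(-1/3) z` times its derivative).  The coefficient of `X^13` in
`E` is `σ³ ζ (-5 + 3) ≠ 0` (`σ, ζ` leading coefficients of `s, z`) and `natDegree E = 13`, so
`V` has degree 7.  Divide by `s` (degree 3): `V = V₀ + s Q`, `deg V₀ ≤ 2`, `deg Q ≤ 4`,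
`Q = V₁ + s V₂`, `deg V₁ ≤ 2`, `deg V₂ ≤ 1`  (`EuclideanDomain.mod_add_div`, `Polynomial.natDegree_mod_lt`,
`natDegree_mul`). -/
def StVEX : Prop := ∀ (k : Type) [Field k] [CharZero k] (n : k) (s z w : k[X]), Crv n s z w →
  ∃ V V₀ V₁ V₂ : k[X],
    V * w = (C (4 * n) - s ^ 3) * derivative z + s ^ 2 * derivative s * z ∧
    V = V₀ + V₁ * s + V₂ * s ^ 2 ∧ V₀.natDegree ≤ 2 ∧ V₁.natDegree ≤ 2 ∧ V₂.natDegree ≤ 1

/-- MODULE ABA (130 lines).  PROOF.  Write `v = s³`, `v' = 3 s² s'`, `g = 4 (n - z³) - v`; evaluated at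
`(v, z)` write `p, q, p_v, p_Z, q_v, q_Z` for `ev p, ev q, ev (dV p), ev (derivative p), ...`.  Relations:
(C) `g = 3 s w²` (the curve); (V) `3 (4n - v) z' + z v' = 3 V w`; (R) `p s + q w = 0`.
Put `N = N1 n p q` (nonzero, Z-degree `≤ 9` by StDGA; `ev N = 3 s (s p - q w)(s p + q w) = 0`),
`Ep = 3 (4n - v) p_v - z p_Z`, `Eq = 3 (4n - v) q_v - z q_Z`, `E N = 3 (4n - v) N_v - z N_Z` where
`N_v = 3 p² + 6 v p p_v - 2 q q_v g + q²` and `N_Z = 6 v p p_Z - 2 q q_Z g + 12 z² q²` (`= ev (derivative N)`).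
(i) `(E N) s = Ĝ w` with `Ĝ = -6 v q Ep + p (6 v Eq - 36 n q)`: since `E(v) = 3 (4n - v)` and `E(g) = -3 g`,
`E N = 9 (4n - v) p² + 6 v p Ep - 2 q g Eq + 3 q² g`; multiply by `s`, use `p s = -q w`, `g = 3 s w²`,
`v = s³`.
(ii) differentiating `ev N = 0` (chain rule of StCHN, or directly `0 = (ev N)' = N_v v' + N_Z z'`),
multiply by `3 (4n - v)` and use (V): `3 V w N_Z = -v' (E N)`.
(iii) so `w (3 V s N_Z + Ĝ v') = 0`, hence `3 V s * ev (derivative N) = - ev(Ĝ) * v'`, where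
`Ĝ ∈ k[v][Z]` is `-6 v q (3 (4n-v) dV p - Z p_Z) + p (6 v (3 (4n-v) dV q - Z q_Z) - 36 n q)`, of Z-degree
`≤ 7` (`natDegree (Z * derivative p) ≤ natDegree p`).
Apply StTRC with `m = 9`, `v := s^3` (natDegree 9), `y := z` (natDegree 5), `N`, `G = -Ĝ`, and
`H = (3 (V₀ s + V₁ s²)).map C + C X * (3 V₂).map C ∈ k[v][T]` (`ev v X H = 3 V s`; natDegree `≤ 8`:
`V₁ s²` has degree `≤ 8`).  `G.coeff 8 = 0`, so `H.coeff 8 = 0` (as `N.coeff 9 ≠ 0`), and
`H.coeff 8 = C (3 (V₁.coeff 2) σ²)`, `σ = s.leadingCoeff` (`V₂.coeff 8 = 0`, `(V₀ s).coeff 8 = 0`). -/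
def StABA : Prop := StCHN → StTRC → StDGA → ∀ (k : Type) [Field k] [CharZero k] (n : k) (s z w : k[X]),
  Crv n s z w → ∀ V V₀ V₁ V₂ : k[X],
    V * w = (C (4 * n) - s ^ 3) * derivative z + s ^ 2 * derivative s * z →
    V = V₀ + V₁ * s + V₂ * s ^ 2 → V₀.natDegree ≤ 2 → V₁.natDegree ≤ 2 → V₂.natDegree ≤ 1 →
  ∀ p q : k[X][X], ¬(p = 0 ∧ q = 0) → p.natDegree ≤ 4 → q.natDegree ≤ 3 →
    ev (s ^ 3) z p * s + ev (s ^ 3) z q * w = 0 → V₁.coeff 2 = 0

/-- MODULE ABB (140 lines).  PROOF.  Write `v = s³`, `x = s z`, `v' = 3 s² s'`, `c = 2κ (v - 2n)`,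
`g = (4/3)(n² - x³)`, `a = s² w + κ (v - 2n)`, so `a² = c a + g` and `2 a - c = 2 s² w`; evaluated at `(v, x)`
write `p, q, p_v, p_Z, q_v, q_Z`.  Let `D = 3 v (4n - v) ∂_v + 2 (2n - v) Z ∂_Z`.
(V) multiply `V w = (4n - v) z' + s² s' z` by `3 s⁴`: `3 s⁴ V w = 3 v (4n - v) x' - 2 (2n - v) x v'`.
(R) `p + q a = 0`.  Put `N = N2 κ n p q`; `ev N = (p + q a)(p + q (c - a)) = 0`; `N ≠ 0` and its Z-degree is
`≤ 9` by StDGB.
(i) `D N = -(2a - c) Ĝ` with `Ĝ = 3 v (4n - v)(q p_v - p q_v) + 2 (2n - v) x (q p_Z - p q_Z) +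
κ (12 n² q² - (9/2) c p q)`: indeed `D N = 2 p Dp + Dc p q + c (p Dq + q Dp) - Dg q² - 2 g q Dq`; with `p = -q a`
this is `-(2a - c)(q Dp - p Dq) - q² (a Dc + Dg)`, where `Dc = 6 κ v (4n - v)`, `Dg = -8 (2n - v) x³`,
`2n - v = (3/2) κ c`, `v (4n - v) = 4 n² + (3/4) c²` (from `3 κ² = -1`), `x³ = n² - (3/4)(a² - c a)`, so that
`a Dc + Dg = (2a - c) κ (12 n² + (9/2) c a)`, and `q² c a = - c p q`.
(ii) `0 = (ev N)' = N_v v' + N_Z x'`; multiply by `3 v (4n - v)` and use (V):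
`3 s⁴ V w N_Z = -v' (D N) = v' 2 s² w Ĝ`; cancel `s² w ≠ 0`: `3 s² V N_Z = 2 Ĝ v'`.
(As `N ∈ k[v][Z]`, `N_v, N_Z` are the values of `dV N`, `derivative N`, or expand by hand.)
`Ĝ ∈ k[v][Z]` has Z-degree `≤ 7`.  Apply StTRC with `m = 9`, `v := s^3`, `y := s z` (natDegree 8), `N`,
`G = 2 Ĝ`, `H = (3 s² V₀).map C + C X * (3 (V₁ + V₂ s)).map C` (`ev v X H = 3 s² V`, natDegree `≤ 8`).
`G.coeff 8 = 0` and `N.coeff 9 ≠ 0`, so `H.coeff 8 = 0`; `H.coeff 8 = C (3 σ² V₀.coeff 2)`. -/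
def StABB : Prop := StCHN → StTRC → StDGB → ∀ (k : Type) [Field k] [CharZero k] (κ n : k) (s z w : k[X]),
  3 * κ ^ 2 + 1 = 0 → Crv n s z w → ∀ V V₀ V₁ V₂ : k[X],
    V * w = (C (4 * n) - s ^ 3) * derivative z + s ^ 2 * derivative s * z →
    V = V₀ + V₁ * s + V₂ * s ^ 2 → V₀.natDegree ≤ 2 → V₁.natDegree ≤ 2 → V₂.natDegree ≤ 1 →
  ∀ p q : k[X][X], ¬(p = 0 ∧ q = 0) → p.natDegree ≤ 4 → q.natDegree ≤ 3 →
    ev (s ^ 3) (s * z) p + ev (s ^ 3) (s * z) q * (s ^ 2 * w + C κ * (s ^ 3 - C (2 * n))) = 0 →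
    V₀.coeff 2 = 0

/-- MODULE REP (70 lines).  PROOF.  Strong induction on `f.natDegree`.  If it is `≤ 2`, `f = a + b X + c X²` with
constants.  Otherwise `natDegree f = 3 j + i`, `i ≤ 2`, `j ≥ 1`; subtract `c s^j X^i` with
`c = f.leadingCoeff / σ^j` and use the induction hypothesis (the degree drops). -/
def StREP : Prop := ∀ (k : Type) [Field k] (s f : k[X]), s.natDegree = 3 →
  ∃ a b c : k[X], f = a.comp s + b.comp s * X + c.comp s * X ^ 2 ∧
    3 * a.natDegree ≤ f.natDegree ∧ (b ≠ 0 → 3 * b.natDegree + 1 ≤ f.natDegree) ∧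
    (c ≠ 0 → 3 * c.natDegree + 2 ≤ f.natDegree)

/-- MODULE IND (50 lines).  PROOF.  With `d = natDegree y`, the nonzero ones among the three terms have degrees
`3 natDegree a`, `3 natDegree b + d`, `3 natDegree c + 2 d`, pairwise distinct modulo 3 (`natDegree_comp`;
`a.comp s = 0 ↔ a = 0` as `s` is nonconstant).  So the one of largest degree cannot cancel. -/
def StIND : Prop := ∀ (k : Type) [Field k] (s y a b c : k[X]), s.natDegree = 3 →
  ¬ 3 ∣ y.natDegree → a.comp s + b.comp s * y + c.comp s * y ^ 2 = 0 → a = 0 ∧ b = 0 ∧ c = 0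

/-- MODULE MIN (70 lines).  A monic cubic relation of `z` over `k[s]`.  PROOF.  By StREP applied to
`z, z X, z X²` there is `B : Matrix (Fin 3) (Fin 3) k[X]` with `z X^i = ∑_j (B i j).comp s X^j`.  So the vector
`(1, X, X²) ≠ 0` is killed by `z I - B(s)` and its determinant is zero
(`Matrix.exists_mulVec_eq_zero_iff`); this determinant is `ev s z B.charpoly`, and `B.charpoly` is monic
of degree 3. -/
def StMIN : Prop := StREP → ∀ (k : Type) [Field k] (s z : k[X]), s.natDegree = 3 →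
  ∃ M : k[X][X], M.Monic ∧ M.natDegree = 3 ∧ ev s z M = 0

/-- MODULE PAR (60 lines).  PROOF.  StREP for `z`, `z²`, `w`: `z = A + B X + C X²`, `z² = A' + B' X + C' X²`,
`w = a + b X + c X²` (coefficients `∘ s`).  Put `Δ = B C' - C B'`, `ω₁ = b C' - c B'`, `ω₂ = B c - C b`; then
`Δ w - ω₁ z - ω₂ z² = Δ a - ω₁ A - ω₂ A' =: ω₀`.  If `Δ = 0`: `C' z - C z²` and `B' z - B z²` are
in `k[s]`, so by StIND (for `y = z`, natDegree 5) `C' = C = B' = B = 0`, and `z = A(s)` has degree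
divisible by 3, contradiction. -/
def StPAR : Prop := StREP → StIND → ∀ (k : Type) [Field k] (s z w : k[X]), s.natDegree = 3 →
  z.natDegree = 5 → ∃ D a b c : k[X], D ≠ 0 ∧
    D.comp s * w = a.comp s + b.comp s * z + c.comp s * z ^ 2

/-- MODULE LNA (150 lines).  The case without `z²`.  PROOF.  Let `F = 3 s (a + b Z)² + D² (s³ + 4 Z³ - 4n) ∈ k[s][Z]`
(inner variable `X = s`), of Z-degree 3 with `Z³`-coefficient `4 D²`; `ev s z F = D(s)² (3 s w² + ...) = 0`.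
`F - 4 D² M` has Z-degree `≤ 2` and vanishes at `(s, z)`, so by StIND (natDegree z = 5) it is 0;
compare the coefficients of `Z²`: (1) `3 X b² = 4 D² m₂`, `m₂ = M.coeff 2`.
(2) `natDegree m₂ ≤ 1`: in `z³ + m₂(s) z² + m₁(s) z + m₀(s) = 0` the terms have degrees `15`,
`3 deg m₂ + 10`, `3 deg m₁ + 5`, `3 deg m₀`, congruent to `0, 1, 2, 0` modulo 3, so the largest degree is
not attained by the second (or third) term alone: `3 deg m₂ + 10 < 15`.
(3) If `b = 0` put `g = 0`.  Otherwise `m₂ ≠ 0`; degrees in (1): `1 + 2 deg b = 2 deg D + deg m₂`, so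
`deg m₂ = 1` (odd, `≤ 1`); multiplicity of the root 0 in (1): `1 + 2 r(b) = 2 r(D) + r(m₂)`, so `r(m₂)` is odd,
so `m₂ = α X`, and `3 b² = 4 α D²`: `D² ∣ b²`, so `D ∣ b` and `b = g D` with `g` constant (degrees equal).
(4) `D(s) (w - g z) = a(s)`.  Let `a = D Q + r`, `deg r < deg D` (`Polynomial.div`); then
`D(s) (w - g z - Q(s)) = r(s)` and by degrees `w - g z = Q(s)`; `3 deg Q ≤ 6`, so `deg Q ≤ 2`. -/
def StLNA : Prop := StIND → ∀ (k : Type) [Field k] [CharZero k] (n : k) (s z w : k[X]), Crv n s z w →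
  ∀ M : k[X][X], M.Monic → M.natDegree = 3 → ev s z M = 0 →
  ∀ D a b : k[X], D ≠ 0 → D.comp s * w = a.comp s + b.comp s * z →
  ∃ b₂ g d e : k, w = C b₂ * s ^ 2 + C g * z + C d * s + C e

/-- The quartic `F = 3 s (a + b Z + c Z²)² + D² (s³ + 4 Z³ - 4 n) ∈ k[s][Z]`. -/
noncomputable def FQ {k : Type} [Field k] (n : k) (D a b c : k[X]) : k[X][X] :=
  3 * C X * (C a + C b * X + C c * X ^ 2) ^ 2 + C (D ^ 2) * (C (X ^ 3) + 4 * X ^ 3 - C (C (4 * n)))

/-- MODULE LNB (60 lines).  PROOF.  `F = FQ n D a b c` has Z-degree 4 (coefficient `3 s c²`).  Divide by the monic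
`M` (`modByMonic`): `F = M Q + r`, `deg_Z r ≤ 2`, `ev s z r = 0` because `ev s z F = D(s)² * (curve) = 0`;
so `r = 0` by StIND.  `Q` has Z-degree `≤ 1`: `Q = α Z - β`, and comparing the coefficients of `Z⁴`,
`α = 3 s c²`. -/
def StLNB : Prop := StIND → ∀ (k : Type) [Field k] [CharZero k] (n : k) (s z w : k[X]), Crv n s z w →
  ∀ M : k[X][X], M.Monic → M.natDegree = 3 → ev s z M = 0 →
  ∀ D a b c : k[X], D.comp s * w = a.comp s + b.comp s * z + c.comp s * z ^ 2 →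
  ∃ β : k[X], FQ n D a b c = M * (C (3 * X * c ^ 2) * X - C β)

/-- `Ĝ = (4n - s³)(3 D Q + 6 s D Q_s - 6 s D' Q) - 6 s³ D Z Q_Z + 9 s³ D Q`, `Q = a + b Z + c Z²`. -/
noncomputable def GQ {k : Type} [Field k] (n : k) (D a b c : k[X]) : k[X][X] :=
  C (C (4 * n) - X ^ 3) * (3 * C D * (C a + C b * X + C c * X ^ 2)
      + 6 * C (X * D) * (C (derivative a) + C (derivative b) * X + C (derivative c) * X ^ 2)
      - 6 * C (X * derivative D) * (C a + C b * X + C c * X ^ 2))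
    - 6 * C (X ^ 3 * D) * X * (C b + 2 * C c * X)
    + 9 * C (X ^ 3 * D) * (C a + C b * X + C c * X ^ 2)

/-- MODULE LNC (90 lines).  PROOF.  Write `F = FQ n D a b c`, `Q = a + b Z + c Z²`, `Γ = s³ + 4 Z³ - 4n`.
(1) In `k[s][Z]`: `D [(4n - s³) F_s - s² Z F_Z] = Q Ĝ - (2 (4n - s³) D' - 3 s² D) ... ` precisely:
with `∂ = (4n - s³) ∂_s - s² Z ∂_Z` one has `∂Γ = -3 s² Γ`, `∂F = 3 (4n - s³) Q² + 6 s Q ∂Q + 2 D D' (4n - s³) Γ
- 3 s² D² Γ`, so `D ∂F = Q Ĝ + (2 (4n - s³) D' - 3 s² D) F` (use `D² Γ = F - 3 s Q²`); here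
`F_s = dV F`, `F_Z = derivative F`.
(2) Evaluate at `(s, z)`: `F = 0` and `Q = D(s) w`, so `D(s) ∂F = D(s) w Ĝ`, `∂F(s,z) = w Ĝ(s,z)`.
(3) `0 = (ev F)' = F_s s' + F_Z z'`, multiply by `4n - s³` and use `V w = (4n - s³) z' + s² s' z`:
`V w F_Z = - s' ((4n - s³) F_s - s² z F_Z) = - s' w Ĝ`; cancel `w`. -/
def StLNC : Prop := StCHN → ∀ (k : Type) [Field k] [CharZero k] (n : k) (s z w : k[X]), Crv n s z w →
  ∀ V : k[X], V * w = (C (4 * n) - s ^ 3) * derivative z + s ^ 2 * derivative s * z →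
  ∀ D a b c : k[X], D ≠ 0 → D.comp s * w = a.comp s + b.comp s * z + c.comp s * z ^ 2 →
  V * ev s z (derivative (FQ n D a b c)) = - derivative s * ev s z (GQ n D a b c)

/-- MODULE LND (130 lines).  PROOF.  `F = M B`, `B = α Z - β`, `α = 3 s c² ≠ 0`; so at `(s, z)`: `F_Z = M_Z B`.
Homogenize: for `P = ∑ P_i Z^i ∈ k[s][Z]` of Z-degree `≤ 3` put `P^ = ∑ P_i β^i α^(3-i) ∈ k[s]`; then
`α³ P = P^ + B P₁` with `P₁ ∈ k[s][Z]` of Z-degree `≤ natDegree P - 1`, explicitly from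
`α^i Z^i - β^i = (α Z - β)(...)`.  For `P = Ĝ = GQ` (Z-degree `≤ 2`): `γ = Ĝ^` and `P₁ = q₁` has Z-degree
`≤ 1`; for `P = M`: `e = M^`, `P₁ = q₂` with `Z²`-coefficient `α²`.
Then `α³ (e Ĝ - γ M) = B (e q₁ - γ q₂) =: B P₂`, `P₂` of Z-degree `≤ 2` with `Z²`-coefficient `-γ α²`.
At `(s, z)`, where `M = 0`: `α³ e Ĝ = B P₂`, so with `V F_Z = -s' Ĝ` : `α³ e V M_Z B = -α³ e s' Ĝ = -s' B P₂`;
`B(s, z) ≠ 0` by StIND (`α ≠ 0`, natDegree z = 5); so `(α³ e)(s) V M_Z = - s' P₂` at `(s, z)`.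
`V = a₀(s) + b₀(s) t`: apply StTRC with `m = 3`, `v := s`, `y := z`, `N := M`, `G := -P₂`,
`H := C (α³ e a₀) + C (α³ e b₀) * X` (natDegree `≤ 1`): `0 = H.coeff 2 * M.coeff 3 = C σ * (-P₂.coeff 2)`,
so `γ α² = 0`, `γ = 0`: `Ĝ^ = 0`, i.e. with `Ĝ = ∑ G_i Z^i`: `G₀ α² + G₁ α β + G₂ β² = 0` (cancel `α`). -/
def StLND : Prop := StTRC → StIND → ∀ (k : Type) [Field k] [CharZero k] (n : k) (s z : k[X]),
  s.natDegree = 3 → z.natDegree = 5 →
  ∀ M : k[X][X], M.Monic → M.natDegree = 3 → ev s z M = 0 →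
  ∀ V a₀ b₀ : k[X], V = a₀.comp s + b₀.comp s * X →
  ∀ D a b c β : k[X], c ≠ 0 → FQ n D a b c = M * (C (3 * X * c ^ 2) * X - C β) →
  V * ev s z (derivative (FQ n D a b c)) = - derivative s * ev s z (GQ n D a b c) →
  (GQ n D a b c).coeff 0 * (3 * X * c ^ 2) ^ 2 + (GQ n D a b c).coeff 1 * (3 * X * c ^ 2) * β
    + (GQ n D a b c).coeff 2 * β ^ 2 = 0

/-- MODULE LNE (110 lines).  PROOF.  `F = M B`, `B = α Z - β`, `α = 3 s c²`.  Work in the fraction field `E`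
of `k[s]` and put `ρ = β/α`; evaluate elements of `k[s][Z]` at `Z = ρ`.  As in LNC (1):
`D ∂F = Q Ĝ + (...) F`, `∂ = (4n - s³) ∂_s - s² Z ∂_Z` (`∂_s = dV`, `∂_Z = derivative`); this is an identity
in `k[s][Z]` (no curve needed).  `F(ρ) = 0`, `Ĝ(ρ) = 0`, so `(∂F)(ρ) = 0`.  `∂F = (∂M) B + M (∂B)`
(`dV` is a derivation), so `M(ρ) (∂B)(ρ) = 0`.
(a) `M(ρ) ≠ 0`: otherwise `M = (Z - ρ) M₁` over `E`; but `M(s, z) = 0` and `M` is of minimal degree: if
`M(ρ) = 0` then `α³ M = M^ + B P₁ = B P₁` (see LND) with `P₁ ≠ 0` of Z-degree 2, and evaluating at `(s, z)`: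
`0 = B(s,z) P₁(s,z)`, contradicting StIND twice.
(b) `(∂B)(ρ) = 0`: `∂B = (4n - s³)(α' Z - β') - s² α Z`; multiply by `α`:
`(4n - s³)(α' β - α β') = s² α β`. -/
def StLNE : Prop := StIND → ∀ (k : Type) [Field k] [CharZero k] (n : k) (s z : k[X]),
  s.natDegree = 3 → z.natDegree = 5 →
  ∀ M : k[X][X], M.Monic → M.natDegree = 3 → ev s z M = 0 →
  ∀ D a b c β : k[X], D ≠ 0 → c ≠ 0 → FQ n D a b c = M * (C (3 * X * c ^ 2) * X - C β) →
  (GQ n D a b c).coeff 0 * (3 * X * c ^ 2) ^ 2 + (GQ n D a b c).coeff 1 * (3 * X * c ^ 2) * β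
    + (GQ n D a b c).coeff 2 * β ^ 2 = 0 →
  (C (4 * n) - X ^ 3) * (derivative (3 * X * c ^ 2) * β - (3 * X * c ^ 2) * derivative β)
    = X ^ 2 * (3 * X * c ^ 2) * β

/-- MODULE LNF (110 lines).  PROOF.  Let `α = 3 s c² ≠ 0`.
(1) `β = 0`: Suppose not.  Put `P = β³`, `T = (s³ - 4n) α³ ≠ 0`; the hypothesis gives `P' T = P T'`
(`P' T - P T' = 3 β² α² [(s³ - 4n)(β' α - β α') - s² α β] = 0`).  In characteristic 0 this forces
`P = C κ₁ * T` for a constant `κ₁` (divide by the gcd: for coprime `P₁, T₁` with `P₁' T₁ = P₁ T₁'` both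
derivatives vanish, `IsCoprime.wronskian_eq_zero_iff`; or compare leading coefficients: the difference
`P - κ₁ T` with `κ₁` chosen to cancel the leading term again satisfies the equation and has another
degree; if nonzero, leading coefficients in `P₂' T = P₂ T'` give `deg P₂ = deg T`, contradiction).
So `β³ = κ₁ (s³ - 4n) α³`, `α³ ∣ β³`, `α ∣ β` (`pow_dvd_pow_iff`), `β = α h`,
`h³ = κ₁ (s³ - 4n)`, `κ₁ ≠ 0`, so `h = h₀ + h₁ s`, `h₁ ≠ 0`; coefficient of `s²`: `3 h₁² h₀ = 0`, so `h₀ = 0`;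
constant coefficient: `0 = -4 n κ₁`, contradiction as `n ≠ 0`.
(2) With `β = 0`: `F = M * (C α * Z)`; its coefficient of `Z^0` is 0: `3 s a² + D² (s³ - 4n) = 0`.  `a ≠ 0` as
`D ≠ 0`.  Multiplicity of the root 0 (`rootMultiplicity`, or the largest power of `X` dividing):
left `1 + 2 r(a)`, right `2 r(D)` since `s³ - 4n` does not vanish at 0.  Contradiction. -/
def StLNF : Prop := ∀ (k : Type) [Field k] [CharZero k] (n : k), n ≠ 0 →
  ∀ (M : k[X][X]) (D a b c β : k[X]), D ≠ 0 → c ≠ 0 →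
  FQ n D a b c = M * (C (3 * X * c ^ 2) * X - C β) →
  (C (4 * n) - X ^ 3) * (derivative (3 * X * c ^ 2) * β - (3 * X * c ^ 2) * derivative β)
    = X ^ 2 * (3 * X * c ^ 2) * β → False

/-- The relation over `k` (proved from the modules above, by helper53). -/
def StREL : Prop := ∀ (k : Type) [Field k] [CharZero k] (κ n : k), 3 * κ ^ 2 + 1 = 0 →
  (∀ a : k, a ^ 3 ≠ n) → ∀ s z w : k[X], Crv n s z w →
  ∃ b g d e : k, w = C b * s ^ 2 + C g * z + C d * s + C e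

/-- MODULE DSC (80 lines).  Descent to `ℚ`.  PROOF.  Let `κ₀ = Complex.I / Real.sqrt 3 ∈ ℂ`, `k = ℚ⟮κ₀⟯` (an
`IntermediateField ℚ ℂ`, its coercion is a `Type`), `[k : ℚ] = 2` (or `≤ 2`: the minimal polynomial divides `3 X² + 1`; or use
`AdjoinRoot (3 X² + 1)`, irreducible).  `n` stays a non-cube in `k`: `X³ - n` is irreducible over `ℚ`
(`X_pow_sub_C_irreducible_of_prime`), so a root `a ∈ k` has `[ℚ(a) : ℚ] = 3`, which divides `[k : ℚ] ∈ {1, 2}`.
Apply StREL to the images of `s, z, w` (`Polynomial.map (algebraMap ℚ k)`): `w = b s² + g z + d s + e` over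
`k`.  Choose a `ℚ`-linear `φ : k → ℚ` with `φ 1 = 1` (`exists_leftInverse_of_injective` or
`Module.exists_dual_forall_apply_eq_zero_iff`...; `LinearMap.exists_leftInverse_of_injective (Algebra.linearMap ℚ k)`) and
apply it to every coefficient: `w = φ(b) s² + φ(g) z + φ(d) s + φ(e)` over `ℚ`. -/
def StDSC : Prop := StREL → ∀ n : ℚ, (∀ a : ℚ, a ^ 3 ≠ n) → ∀ s z w : ℚ[X], Crv n s z w →
  ∃ b g d e : ℚ, w = C b * s ^ 2 + C g * z + C d * s + C e

/-! ## Part A: reduction to the curve -/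

/-- MODULE DVT (60 lines).  PROOF.  Induction on the factorization of `f` (`WfDvdMonoid.induction_on_irreducible`
or `UniqueFactorizationMonoid.induction_on_prime`): units have degree 0; for `f = p f'` with `p`
irreducible, `p ∣ X-valued z³ - n`, the field `K = AdjoinRoot p` has `[K : ℚ] = natDegree p` and contains the
class `β` of `z` with `β³ = n`.  `X³ - n` is irreducible over `ℚ` (`X_pow_sub_C_irreducible_of_prime`), so
`[ℚ(β) : ℚ] = 3` divides `natDegree p` (`minpoly.natDegree`, `IntermediateField.adjoin.finrank`,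
`Module.finrank_mul_finrank`). -/
def StDVT : Prop := ∀ n : ℚ, (∀ a : ℚ, a ^ 3 ≠ n) → ∀ f z : ℚ[X], f ≠ 0 → f ∣ z ^ 3 - C n →
  3 ∣ f.natDegree

/-- The Mordell form with `z` as the distinguished entry. -/
def IsM (n : ℚ) (x y z : ℚ[X]) : Prop := ∃ (c : ℚ) (h : ℚ[X]), n = 2 * c ^ 3 ∧
  x = C c * (1 - 6 * h ^ 3) ∧ y = C c * (1 + 6 * h ^ 3) ∧ z = C (-6 * c) * h ^ 2

/-- MODULE LCF (70 lines).  PROOF.  Let `D ≥ 1` be the largest of the three degrees and `a, b, c` the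
coefficients of `X^D` in `x, y, z` (not all 0).  The coefficient of `X^(3D)` in `x³ + y³ + z³ = n` is
`a³ + b³ + c³ = 0` (`coeff_pow_of_natDegree_le`).  Fermat for exponent 3 over `ℚ`
(`fermatLastTheoremThree`, `fermatLastTheoremFor_iff_rat`; put the negative signs away, `(-b)³ = -b³`)
gives `a = 0` or `b = 0` or `c = 0`, and then exactly one of them is 0 and the other two are opposite
(`a³ = (-b)³`, odd power injective).  If `c = 0`: `x.natDegree = D = y.natDegree`, `z.natDegree < D`,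
`(x + y).natDegree < D`.  (If `D` were attained with `z = 0`, `natDegree z = 0 < D` is fine.) -/
def StLCF : Prop := ∀ (n : ℚ) (x y z : ℚ[X]), x ^ 3 + y ^ 3 + z ^ 3 = C n →
  ¬(x.natDegree = 0 ∧ y.natDegree = 0 ∧ z.natDegree = 0) →
  let P := fun (x y z : ℚ[X]) => 0 < x.natDegree ∧ y.natDegree = x.natDegree ∧
    z.natDegree < x.natDegree ∧ (x + y).natDegree < x.natDegree
  P x y z ∨ P x z y ∨ P y z x

/-- MODULE DGC (80 lines).  PROOF.  `s = x + y ≠ 0`, otherwise `z³ = n`, `z` is constant and `n` a cube.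
`s (x² - x y + y²) = n - z³`.  As `y.leadingCoeff = -x.leadingCoeff` (`(x + y).natDegree < x.natDegree`), the
coefficient of `X^(2D)` (`D = x.natDegree`) in `x² - x y + y²` is `3 lc(x)² ≠ 0`, so its degree is `2 D`.  If
`z.natDegree = 0` then `n - z³` is a nonzero constant, so `2 D = 0`, contradiction.  So
`natDegree (n - z³) = 3 natDegree z` and `natDegree s + 2 D = 3 natDegree z`.  By StDVT (`s ∣ z³ - n`),
`3 ∣ natDegree s`, so `3 ∣ D`, and `D ≤ 8`, `natDegree s < D`, so `natDegree s ∈ {0, 3}`, and if it is 3 then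
`D = 6`, `natDegree z = 5`.  Also `natDegree (x - y) = D` (leading coefficient `2 lc(x)`). -/
def StDGC : Prop := StDVT → ∀ (n : ℚ), (∀ a : ℚ, a ^ 3 ≠ n) → ∀ x y z : ℚ[X],
  x ^ 3 + y ^ 3 + z ^ 3 = C n → 0 < x.natDegree → x.natDegree ≤ 8 → y.natDegree = x.natDegree →
  z.natDegree < x.natDegree → (x + y).natDegree < x.natDegree →
  x + y ≠ 0 ∧ (x - y).natDegree = x.natDegree ∧ 0 < z.natDegree ∧
  ((x + y).natDegree = 0 ∨
    ((x + y).natDegree = 3 ∧ z.natDegree = 5 ∧ (x - y).natDegree = 6))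

/-- MODULE CST (90 lines).  The case of constant `x + y`.  PROOF.  `x + y = C k₀`, `k₀ ≠ 0`, `w = x - y`,
`x = (k₀ + w)/2`, `y = (k₀ - w)/2`; the equation becomes `3 k₀ w² + 4 z³ = 4 n - k₀³`.  If
`4 n ≠ k₀³` then `z, w` are coprime and `Polynomial.flt_catalan` (exponents `3, 2, 6`, third polynomial 1:
`12 + 18 + 6 ≤ 36`) gives `natDegree z = 0`, contradiction.  So `4 n = k₀³`; put `c = k₀/2`, `n = 2 c³`,
`3 c w² = -2 z³`.  `w ≠ 0` (else `z = 0`, of degree 0), `z² ∣ w²`, so `z ∣ w` (`pow_dvd_pow_iff`), `w = 2 z h`,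
`6 c h² = -z` (cancel `z²`), so `z = -6 c h²`, `w = -12 c h³`, `x = c (1 - 6 h³)`, `y = c (1 + 6 h³)`. -/
def StCST : Prop := ∀ (n : ℚ) (x y z : ℚ[X]), x ^ 3 + y ^ 3 + z ^ 3 = C n →
  (x + y).natDegree = 0 → x + y ≠ 0 → 0 < z.natDegree → IsM n x y z

/-! ## Part C: the relation is impossible over `ℚ` -/

/-- MODULE NRM (160 lines).  Normal form.  PROOF.  (1) Translate: `s = σ X³ + σ₂ X² + ...`; with
`τ = -σ₂/(3σ)`, `S = s.comp (X + C τ)` has no `X²` term, `S = σ (X³ - P X - R₀)`.  `Z = z.comp (X + C τ)`,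
`W = w.comp (X + C τ)` satisfy Crv again.  (2) `S ∣ Z³ - n` (from the curve, `S` divides `4 Z³ - 4 n`), every
divisor of `S` of positive degree has degree divisible by 3 (StDVT), so `S` is irreducible;
`K = AdjoinRoot S` is a field with `[K : ℚ] = 3`, `α` = class of `Z`, `α³ = n`, `X³ - n` irreducible over `ℚ`, so
`1, α, α²` is a `ℚ`-basis of `K`; `t` = class of `X`.  Write `t = p₀ + q α + r α²`.  Then
`β = t - p₀ = q α + r α²` satisfies `β³ = 3 n q r β + (n q³ + n² r³)`, so the cubic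
`(X - p₀)³ - 3 n q r (X - p₀) - (n q³ + n² r³)` vanishes at `t`; it is monic of degree 3 like
`X³ - P X - R₀`, the difference has degree `≤ 2` and vanishes at `t`, so it is 0; the coefficient of `X²`
gives `p₀ = 0`, then `P = 3 n q r`, `R₀ = n q³ + n² r³`.
(3) StREP for `Z` (degree 5): `Z = A(S) + B(S) X + C(S) X²` with `A = a₀ + a₁ X`, `B = b₀ + b₁ X`,
`C = c₀ + c₁ X` (degree bounds), `c₁ ≠ 0` since `natDegree Z = 5` (otherwise it is `≤ 4`).
(4) In `K` (where `S = 0`): `α = a₀ + b₀ t + c₀ t²`, `t² = 2 n q r + n r² α + q² α²`; compare coefficients in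
the basis `1, α, α²`: `a₀ + 2 n q r c₀ = 0`, `b₀ q + n c₀ r² = 1`, `b₀ r + c₀ q² = 0`. -/
def StNRM : Prop := StDVT → StREP → ∀ (n : ℚ), (∀ a : ℚ, a ^ 3 ≠ n) → ∀ s z w : ℚ[X], Crv n s z w →
  ∃ τ σ q r a₀ a₁ b₀ b₁ c₀ c₁ : ℚ, σ ≠ 0 ∧ c₁ ≠ 0 ∧ a₀ + 2 * n * q * r * c₀ = 0 ∧
    b₀ * q + n * c₀ * r ^ 2 = 1 ∧ b₀ * r + c₀ * q ^ 2 = 0 ∧
    s.comp (X + C τ) = C σ * (X ^ 3 - C (3 * n * q * r) * X - C (n * q ^ 3 + n ^ 2 * r ^ 3)) ∧
    z.comp (X + C τ) = (C a₀ + C a₁ * X).comp (s.comp (X + C τ))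
      + (C b₀ + C b₁ * X).comp (s.comp (X + C τ)) * X
      + (C c₀ + C c₁ * X).comp (s.comp (X + C τ)) * X ^ 2

/-- MODULE CMP (90 lines).  Comparison of coefficients.  PROOF.  Put `u = B(s) X + C(s) X²` (so `z = A(s) + u`),
`t = X`, `t³ = P t + R(s)`, `R = R₀ + e X` with `e = 1/σ` (from `s = σ (t³ - P t - R₀)`).  One checks
(with `t³ = P t + R`; `linear_combination`) `u³ - 2 P C u² + (P² C² - P B² - 3 R B C) u - ε₃ = 0`,
`ε₃ = R (B³ - P B C² + R C³)` (all evaluated at `s`).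
With `W = W₀ + g A`, `w = W₀(s) + g z = W(s) + g u`, the curve equation reads
`4 u³ + (12 A + 3 s g²) u² + (12 A² + 6 s g W) u + (4 A³ + 3 s W² + s³ - 4 n) = 0`.  Subtract 4 times the
cubic of `u`: `H₂(s) u² + H₁(s) u + H₀(s) = 0` where `H₂ = 12 A + 3 X g² + 8 P C`,
`H₁ = 12 A² + 6 X g W - 4 (P² C² - P B² - 3 R B C)`, `H₀ = 4 A³ + 3 X W² + X³ - 4 n + 4 ε₃`.  Substitute
`u = z - A(s)`: a relation `(..)(s) + (..)(s) z + (..)(s) z² = 0`, so by StIND all three are 0, hence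
`H₂ = 0`, `H₁ = 0`, `H₀ = 0`. -/
def StCMP : Prop := StIND → ∀ (n σ P R₀ g : ℚ) (s z w A B C' W₀ : ℚ[X]), Crv n s z w → σ ≠ 0 →
  s = C σ * (X ^ 3 - C P * X - C R₀) →
  z = A.comp s + B.comp s * X + C'.comp s * X ^ 2 → w = W₀.comp s + C g * z →
  12 * A + 3 * X * C (g ^ 2) + 8 * C P * C' = 0 ∧
  12 * A ^ 2 + 6 * X * C g * (W₀ + C g * A) - 4 * (C (P ^ 2) * C' ^ 2 - C P * B ^ 2
    - 3 * (C R₀ + C (1 / σ) * X) * B * C') = 0 ∧
  4 * A ^ 3 + 3 * X * (W₀ + C g * A) ^ 2 + X ^ 3 - C (4 * n)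
    + 4 * (C R₀ + C (1 / σ) * X) * (B ^ 3 - C P * B * C' ^ 2 + (C R₀ + C (1 / σ) * X) * C' ^ 3) = 0

end PF
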